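import Mathlib
import Pool.Graph.R_seed8.Y741.Local

/-!
Points on planes over an algebraically closed subfield.
-/

set_option autoImplicit false

open MvPolynomial
open Pool.Agent.Y735 (pl)

namespace Pool.Agent.KS6_26.G

/-- The prime ideals of the ring of polynomials in two variables. -/
theorem prime_cases {N : Type} [Field N] [IsAlgClosed N] (p : Ideal (MvPolynomial (Fin 2) N))
    (hp : p.IsPrime) : p = ⊥ ∨ (∃ g, Prime g ∧ p = Ideal.span {g}) ∨
      ∃ a : Fin 2 → N, ∀ i, X i - C (a i) ∈ p := by
  by_cases h0 : p = ⊥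
  · exact Or.inl h0
  right
  obtain ⟨g, hg, hgp⟩ := hp.exists_mem_prime_of_ne_bot h0
  by_cases h1 : p = Ideal.span {g}
  · exact Or.inl ⟨g, hgp, h1⟩
  right
  have hlt : Ideal.span {g} < p :=
    lt_of_le_of_ne ((Ideal.span_singleton_le_iff_mem p).2 hg) (Ne.symm h1)
  obtain ⟨m, hm, hpm⟩ := Ideal.exists_le_maximal p hp.ne_top
  have hpm' : p = m := by
    by_contra hne
    have hlt2 : p < m := lt_of_le_of_ne hpm hne
    have hlt0 : (⊥ : Ideal (MvPolynomial (Fin 2) N)) < Ideal.span {g} := by
      rw [bot_lt_iff_ne_bot, Ne, Ideal.span_singleton_eq_bot]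
      exact hgp.ne_zero
    let P0 : PrimeSpectrum (MvPolynomial (Fin 2) N) := ⟨⊥, Ideal.isPrime_bot⟩
    let P1 : PrimeSpectrum (MvPolynomial (Fin 2) N) :=
      ⟨Ideal.span {g}, (Ideal.span_singleton_prime hgp.ne_zero).2 hgp⟩
    let P2 : PrimeSpectrum (MvPolynomial (Fin 2) N) := ⟨p, hp⟩
    let P3 : PrimeSpectrum (MvPolynomial (Fin 2) N) := ⟨m, hm.isPrime⟩
    let s0 : LTSeries (PrimeSpectrum (MvPolynomial (Fin 2) N)) := RelSeries.singleton _ P0
    let s1 := s0.snoc P1 (show P0 < P1 from hlt0)
    let s2 := s1.snoc P2 (by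
      rw [show s1.last = P1 from RelSeries.last_snoc _ _ _]
      exact hlt)
    let s3 := s2.snoc P3 (by
      rw [show s2.last = P2 from RelSeries.last_snoc _ _ _]
      exact hlt2)
    have h3 := Order.LTSeries.length_le_krullDim s3
    have h4 : s3.length = 3 := rfl
    have h5 : Order.krullDim (PrimeSpectrum (MvPolynomial (Fin 2) N)) = 2 := by
      have h6 := MvPolynomial.ringKrullDim_of_isNoetherianRing (R := N) (ι := Fin 2)
      rw [ringKrullDim_eq_zero_of_field] at h6
      simpa [ringKrullDim] using h6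
    rw [h4, h5] at h3
    exact absurd h3 (by decide)
  rw [hpm']
  obtain ⟨a, ha⟩ := isMaximal_iff_eq_vanishingIdeal_singleton.1 hm
  refine ⟨a, fun i => ?_⟩
  rw [ha, mem_vanishingIdeal_singleton_iff]
  simp

/-- The restriction of a form to an affine plane. -/
noncomputable def sub {N : Type} [Field N] {n : ℕ} (p : Fin 3 → Fin (n + 1) → N) :
    MvPolynomial (Fin (n + 1)) N →ₐ[N] MvPolynomial (Fin 2) N :=
  aeval fun i => C (p 0 i) + C (p 1 i) * X 0 + C (p 2 i) * X 1

theorem aeval_sub {N M : Type} [Field N] [Field M] [Algebra N M] {n : ℕ}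
    (p : Fin 3 → Fin (n + 1) → N) (w : Fin 2 → M) (F : MvPolynomial (Fin (n + 1)) N) :
    aeval w (sub p F) = aeval (fun i => algebraMap N M (p 0 i) + algebraMap N M (p 1 i) * w 0 +
      algebraMap N M (p 2 i) * w 1) F := by
  have h1 : (aeval w : MvPolynomial (Fin 2) N →ₐ[N] M).comp (sub p) =
      aeval (fun i => algebraMap N M (p 0 i) + algebraMap N M (p 1 i) * w 0 +
      algebraMap N M (p 2 i) * w 1) := by
    apply algHom_ext
    intro i
    simp [sub]
  exact DFunLike.congr_fun h1 F

theorem eval_sub {N : Type} [Field N] {n : ℕ}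
    (p : Fin 3 → Fin (n + 1) → N) (w : Fin 2 → N) (F : MvPolynomial (Fin (n + 1)) N) :
    eval w (sub p F) = eval (fun i => p 0 i + p 1 i * w 0 + p 2 i * w 1) F := by
  have h1 := aeval_sub (M := N) p w F
  simpa [aeval_eq_eval] using h1

/-- The coordinates of three vectors that span a plane are reduced. -/
def Ech {N : Type} [Field N] {n : ℕ} (l0 u0 v0 : Fin (n + 1)) (p : Fin 3 → Fin (n + 1) → N) : Prop :=
  l0 ≠ u0 ∧ l0 ≠ v0 ∧ u0 ≠ v0 ∧ (p 0 l0 = 1 ∧ p 1 l0 = 0 ∧ p 2 l0 = 0) ∧
    (p 0 u0 = 0 ∧ p 1 u0 = 1 ∧ p 2 u0 = 0) ∧ (p 0 v0 = 0 ∧ p 1 v0 = 0 ∧ p 2 v0 = 1)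

/-- There are no plane curves of degree at least two. -/
def NPC {N A : Type} [Field N] {n : ℕ} (F : A → MvPolynomial (Fin (n + 1)) N) : Prop :=
  ∀ (l0 u0 v0 : Fin (n + 1)) (p : Fin 3 → Fin (n + 1) → N), Ech l0 u0 v0 p →
    ∀ g : MvPolynomial (Fin 2) N, 2 ≤ g.totalDegree → ¬ ∀ a, g ∣ sub p (F a)

theorem line_of_affine {N : Type} [Field N] [Infinite N] {n d : ℕ}
    {F : MvPolynomial (Fin (n + 1)) N} (hF : F.IsHomogeneous d) {x y : Fin (n + 1) → N}
    (h : ∀ s : N, eval (x + s • y) F = 0) (α β : N) : eval (α • x + β • y) F = 0 := by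
  obtain ⟨q, hq⟩ : ∃ q : Polynomial N, ∀ t : N, q.eval t = eval (t • x + β • y) F := by
    refine ⟨aeval (fun i => Polynomial.X * Polynomial.C (x i) + Polynomial.C (β * y i)) F,
      fun t => ?_⟩
    have h1 : (Polynomial.evalRingHom t).comp (algebraMap N (Polynomial N)) = RingHom.id N := by
      ext a
      simp
    have h2 := hom_eval₂ F (algebraMap N (Polynomial N)) (Polynomial.evalRingHom t)
      (fun i => Polynomial.X * Polynomial.C (x i) + Polynomial.C (β * y i))
    rw [h1] at h2
    rw [aeval_def]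
    change Polynomial.evalRingHom t _ = _
    rw [h2]
    change eval _ F = _
    congr 1
    congr 1
    funext i
    simp only [Polynomial.coe_evalRingHom, Polynomial.eval_add, Polynomial.eval_mul,
      Polynomial.eval_X, Polynomial.eval_C, Pi.add_apply, Pi.smul_apply, smul_eq_mul]
  have h1 : ∀ t : N, t ≠ 0 → q.eval t = 0 := by
    intro t ht
    rw [hq]
    have h2 : t • x + β • y = t • (x + (β / t) • y) := by
      rw [smul_add, smul_smul, mul_div_cancel₀ _ ht]
    rw [h2]
    have h3 := Pool.Agent.TH145.GH.eval_smul_hom hF (x + (β / t) • y) t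
    rw [h3, h, mul_zero]
  have h2 : q = 0 := by
    refine Polynomial.eq_zero_of_infinite_isRoot q ?_
    have h3 : {t : N | t ≠ 0}.Infinite := by
      have h4 : ({0} : Set N)ᶜ.Infinite := (Set.finite_singleton (0 : N)).infinite_compl
      exact h4
    exact h3.mono fun t ht => h1 t ht
  rw [← hq, h2, Polynomial.eval_zero]

theorem deg_one {N : Type} [Field N] {g : MvPolynomial (Fin 2) N} (hg : g.totalDegree < 2) :
    g = C (g.coeff 0) + C (g.coeff (Finsupp.single 0 1)) * X 0 +
      C (g.coeff (Finsupp.single 1 1)) * X 1 := by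
  have hne1 : (Finsupp.single 0 1 : Fin 2 →₀ ℕ) ≠ 0 := by
    rw [Ne, Finsupp.single_eq_zero]; exact one_ne_zero
  have hne2 : (Finsupp.single 1 1 : Fin 2 →₀ ℕ) ≠ 0 := by
    rw [Ne, Finsupp.single_eq_zero]; exact one_ne_zero
  have hne3 : (Finsupp.single 0 1 : Fin 2 →₀ ℕ) ≠ Finsupp.single 1 1 := by
    intro h
    have := DFunLike.congr_fun h 0
    simp at this
  ext m
  rw [coeff_add, coeff_add, coeff_C, coeff_C_mul, coeff_C_mul, coeff_X, coeff_X]
  by_cases h0 : m = 0
  · subst h0
    rw [if_pos rfl, if_neg hne1, if_neg hne2]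
    ring
  by_cases h1 : m = Finsupp.single 0 1
  · subst h1
    rw [if_neg hne1.symm, if_pos rfl, if_neg hne3.symm]
    ring
  by_cases h2 : m = Finsupp.single 1 1
  · subst h2
    rw [if_neg hne2.symm, if_neg hne3, if_pos rfl]
    ring
  rw [if_neg (Ne.symm h0), if_neg (Ne.symm h1), if_neg (Ne.symm h2)]
  simp only [mul_zero, add_zero]
  refine coeff_eq_zero_of_totalDegree_lt (lt_of_lt_of_le hg ?_)
  have hsum : ∑ i ∈ m.support, m i = m 0 + m 1 := by
    have h5 := Finsupp.sum_fintype m (fun _ a => a) (fun _ => rfl)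
    rw [Fin.sum_univ_two] at h5
    exact h5
  rw [hsum]
  by_contra hcon
  push Not at hcon
  have h3 : m 0 + m 1 = 0 ∨ m 0 + m 1 = 1 := by omega
  rcases h3 with h3 | h3
  · apply h0
    ext i
    fin_cases i
    · change m 0 = 0; omega
    · change m 1 = 0; omega
  · have h4 : (m 0 = 1 ∧ m 1 = 0) ∨ (m 0 = 0 ∧ m 1 = 1) := by omega
    rcases h4 with ⟨h4, h5⟩ | ⟨h4, h5⟩
    · apply h1
      ext i
      fin_cases i
      · change m 0 = _; rw [h4]; simp
      · change m 1 = _; rw [h5]; simp
    · apply h2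
      ext i
      fin_cases i
      · change m 0 = _; rw [h4]; simp
      · change m 1 = _; rw [h5]; simp

/-- Points on planes over the smaller field. -/
theorem plane_cases {N M A : Type} [Field N] [Field M] [Algebra N M] [IsAlgClosed N] {n : ℕ}
    {dg : A → ℕ} {F : A → MvPolynomial (Fin (n + 1)) N} (hF : ∀ a, (F a).IsHomogeneous (dg a))
    (hpc : NPC F) {l0 u0 v0 : Fin (n + 1)} {p : Fin 3 → Fin (n + 1) → N}
    (he : Ech l0 u0 v0 p) {z : Fin (n + 1) → M} {U V : M}
    (hz : ∀ i, z i = algebraMap N M (p 0 i) + algebraMap N M (p 1 i) * U +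
      algebraMap N M (p 2 i) * V) (hzF : ∀ a, aeval z (F a) = 0) :
    (∀ i, ∃ r : N, algebraMap N M r = z i) ∨
    ∃ (y : Fin (n + 1) → M) (ik : Fin (n + 1) × Fin (n + 1)), pl z y ik ≠ 0 ∧
      ∀ a, ∀ α β : M, eval (α • z + β • y) (map (algebraMap N M) (F a)) = 0 := by
  have hinf : Infinite N := IsAlgClosed.instInfinite
  have hinfM : Infinite M := Infinite.of_injective _ (algebraMap N M).injective
  obtain ⟨w, hw⟩ : ∃ w : Fin 2 → M, w = ![U, V] := ⟨_, rfl⟩
  have hmem : ∀ a, aeval w (sub p (F a)) = 0 := by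
    intro a
    rw [aeval_sub, ← hzF a]
    congr 1
    congr 1
    funext i
    rw [hz, hw]
    rfl
  rcases prime_cases (RingHom.ker (aeval w : MvPolynomial (Fin 2) N →ₐ[N] M))
    (RingHom.ker_isPrime _) with h | ⟨g, hg, h⟩ | ⟨c, hc⟩
  · exfalso
    refine hpc l0 u0 v0 p he (X 0 ^ 2) (by rw [totalDegree_X_pow]) fun a => ?_
    have h1 : sub p (F a) = 0 := by
      have h2 : sub p (F a) ∈ RingHom.ker (aeval w : MvPolynomial (Fin 2) N →ₐ[N] M) := hmem a
      rw [h] at h2
      exact h2
    rw [h1]
    exact dvd_zero _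
  · have hdvd : ∀ a, g ∣ sub p (F a) := by
      intro a
      rw [← Ideal.mem_span_singleton, ← h]
      exact hmem a
    have hgw : aeval w g = 0 := by
      have h2 : g ∈ RingHom.ker (aeval w : MvPolynomial (Fin 2) N →ₐ[N] M) := by
        rw [h]
        exact Ideal.mem_span_singleton_self g
      exact h2
    obtain ⟨h1, h2, h3, ⟨e1, e2, e3⟩, ⟨e4, e5, e6⟩, ⟨e7, e8, e9⟩⟩ := id he
    have hl0 : z l0 = 1 := by
      rw [hz, e1, e2, e3, map_one, map_zero, zero_mul, zero_mul, add_zero, add_zero]
    rcases Nat.lt_or_ge g.totalDegree 2 with hlt | hge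
    · -- a line
      right
      obtain ⟨c, a, b, hg1⟩ : ∃ c a b : N, g = C c + C a * X 0 + C b * X 1 := ⟨_, _, _, deg_one hlt⟩
      have hUV : algebraMap N M c + algebraMap N M a * U + algebraMap N M b * V = 0 := by
        rw [hg1, hw] at hgw
        simpa using hgw
      have hev : ∀ s t : M, algebraMap N M c + algebraMap N M a * s + algebraMap N M b * t = 0 →
          ∀ κ, eval (fun i => algebraMap N M (p 0 i) + algebraMap N M (p 1 i) * s +
            algebraMap N M (p 2 i) * t) (map (algebraMap N M) (F κ)) = 0 := by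
        intro s t hst κ
        obtain ⟨q, hq⟩ := hdvd κ
        have h4 := aeval_sub p ![s, t] (F κ)
        rw [hq, map_mul] at h4
        have h5 : aeval ![s, t] g = 0 := by
          rw [hg1]
          simpa using hst
        rw [h5, zero_mul] at h4
        rw [eval_map, ← aeval_def]
        exact h4.symm
      by_cases hb : b = 0
      · by_cases ha : a = 0
        · exfalso
          rw [ha, hb, map_zero, zero_mul, zero_mul, add_zero, add_zero] at hg1
          by_cases hc : c = 0
          · rw [hc, map_zero] at hg1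
            exact hg.ne_zero hg1
          · apply hg.not_isUnit
            rw [hg1]
            exact (isUnit_iff_ne_zero.2 hc).map C
        · refine ⟨fun i => algebraMap N M (p 2 i), (l0, v0), ?_, fun κ =>
            line_of_affine ((hF κ).map _) ?_⟩
          · change z l0 * algebraMap N M (p 2 v0) - z v0 * algebraMap N M (p 2 l0) ≠ 0
            rw [hl0, e9, e3, map_one, map_zero, mul_zero, sub_zero, one_mul]
            exact one_ne_zero
          · intro t
            have h4 := hev U (V + t) (by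
              rw [hb, map_zero, zero_mul, add_zero] at hUV ⊢
              exact hUV) κ
            rw [← h4]
            congr 1
            congr 1
            funext i
            simp only [Pi.add_apply, Pi.smul_apply, smul_eq_mul]
            rw [hz]
            ring
      · have hbM : algebraMap N M b ≠ 0 := by rwa [Ne, map_eq_zero]
        refine ⟨fun i => algebraMap N M (p 1 i) + (-algebraMap N M a / algebraMap N M b) *
            algebraMap N M (p 2 i), (l0, u0), ?_, fun κ => line_of_affine ((hF κ).map _) ?_⟩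
        · change z l0 * (algebraMap N M (p 1 u0) + (-algebraMap N M a / algebraMap N M b) *
            algebraMap N M (p 2 u0)) - z u0 * (algebraMap N M (p 1 l0) +
            (-algebraMap N M a / algebraMap N M b) * algebraMap N M (p 2 l0)) ≠ 0
          rw [hl0, e5, e6, e2, e3, map_one, map_zero, mul_zero, add_zero, add_zero,
            mul_zero, sub_zero, one_mul]
          exact one_ne_zero
        · intro t
          have h4 := hev (U + t) (V + (-algebraMap N M a / algebraMap N M b) * t) (by
            rw [← hUV]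
            field_simp
            ring) κ
          rw [← h4]
          congr 1
          congr 1
          funext i
          simp only [Pi.add_apply, Pi.smul_apply, smul_eq_mul]
          rw [hz]
          ring
    · exact absurd hdvd (hpc l0 u0 v0 p he g hge)
  · left
    intro i
    refine ⟨p 0 i + p 1 i * c 0 + p 2 i * c 1, ?_⟩
    have hU : ∀ j, w j = algebraMap N M (c j) := by
      intro j
      have h1 : aeval w (X j - C (c j) : MvPolynomial (Fin 2) N) = 0 := hc j
      rw [map_sub, aeval_X, sub_eq_zero] at h1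
      rw [h1, aeval_C]
    have h0 := hU 0
    have h1 := hU 1
    rw [hw] at h0 h1
    change U = _ at h0
    change V = _ at h1
    rw [hz, h0, h1]
    simp only [map_add, map_mul]

end Pool.Agent.KS6_26.G
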