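import Pool.Agent.KS6_26.G.Entry
import Pool.Agent.KS6_26.G.PlaneN
import Pool.Graph.R_seed8.Y741.KComb

/-!
The combination of the cases for complete intersections on the borderline.
-/

set_option autoImplicit false

open MvPolynomial FF Pool.Agent.W603.LV Pool.Agent.W603.PV Pool.Agent.TH145.GH Pool.Agent.Y741
open Pool.Agent.Y735 (lf dt pl pm vol vol_apply fht fht_nonneg Good exists_pl exists_pairs
  pmx span_pmx mem_Mx)

namespace Pool.Agent.KS6_26.G

variable {k K : Type} [Field k] [Field K] [Algebra k K] {n : ℕ} {A B : Type}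

/-- A plane of bounded height through the point. -/
def Pln (k : Type) {K : Type} [Field k] [Field K] [Algebra k K] {n : ℕ} (H : ℤ)
    (l0 : Fin (n + 1)) (x : Fin (n + 1) → K) : Prop :=
  ∃ u0 v0 : Fin (n + 1), ∃ p : Fin 3 → Fin (n + 1) → K, Ech l0 u0 v0 p ∧
    (∀ i, x i = p 0 i + x u0 * p 1 i + x v0 * p 2 i) ∧ ∀ s i, hgt k (p s i) ≤ H

section

variable [DecidableEq A] [Fintype A] {F : Fam K n A} {dg : A → ℕ}
  {D : A → (Fin (n + 1) →₀ ℕ) → Derivation ℤ K K}

/-- The determinant does not vanish when the rows span the tangent space. -/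
theorem vol_ne [Fintype B] (hF : ∀ a, (F a).IsHomogeneous (dg a)) (hD : TH145.GC.Dual F dg D)
    {x : Fin (n + 1) → K} (hxC : ∀ a, eval x (F a) = 0) {i0 : Fin (n + 1)} (hi0 : x i0 ≠ 0)
    (Q : B → Fam K n A) (β u v : B → Fin (n + 1)) (E : RI A B ≃ Fin (n + 1))
    (hspan : TC F Finset.univ x ≤ Submodule.span K (Set.range fun j : Option (B ⊕ B) =>
      prow dg D x i0 Q β u v (Sum.inr j))) :
    vol E (prow dg D x i0 Q β u v) ≠ 0 := by
  classical
  have hxC' : ∀ c ∈ (Finset.univ : Finset A), eval x (F c) = 0 := fun c _ => hxC c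
  have hE : Fintype.card (RI A B) = Fintype.card (Fin (n + 1)) := Fintype.card_congr E
  have htop : Submodule.span K (Set.range (prow dg D x i0 Q β u v)) = ⊤ := by
    rw [eq_top_iff]
    intro z _
    have h1 := exists_dec hF hD hxC' hi0 z
    have h2 : Submodule.span K (Set.range fun j : Option (B ⊕ B) =>
        prow dg D x i0 Q β u v (Sum.inr j)) ≤
        Submodule.span K (Set.range (prow dg D x i0 Q β u v)) := by
      refine Submodule.span_mono ?_
      rintro _ ⟨κ, rfl⟩
      exact ⟨Sum.inr κ, rfl⟩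
    have h3 := h2 (hspan h1)
    have h4 : ∑ c : (Finset.univ : Finset A), (-(dF (F c) x z / x i0 ^ dg c.1)) •
        vA D x (Pi.single c.1 (X i0 ^ dg c.1)) ∈
        Submodule.span K (Set.range (prow dg D x i0 Q β u v)) :=
      sum_mem fun c _ => Submodule.smul_mem _ _ (Submodule.subset_span ⟨Sum.inl c.1, rfl⟩)
    have h5 := add_mem h3 h4
    rwa [sub_add_cancel] at h5
  have hind : LinearIndependent K (prow dg D x i0 Q β u v) :=
    linearIndependent_of_top_le_span_of_card_eq_finrank htop.ge (by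
      rw [hE, Fintype.card_fin, Module.finrank_fin_fun])
  rw [vol_apply]
  have h4 := Matrix.linearIndependent_rows_iff_isUnit
    (A := Matrix.of fun i => prow dg D x i0 Q β u v (E.symm i))
  rw [Matrix.isUnit_iff_isUnit_det, isUnit_iff_ne_zero] at h4
  refine h4.1 ?_
  exact (linearIndependent_equiv E.symm).2 hind

end

section

variable [CharZero k] [IsFF k K] [IsAlgClosed k] [DecidableEq A] [Fintype A] {F : Fam K n A}
  {dg : A → ℕ} {D : A → (Fin (n + 1) →₀ ℕ) → Derivation ℤ K K} {e g : Place k K → ℤ}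

/-- The remaining case. -/
theorem case_plane [Infinite K] (hdat : DataL k F dg D e g)
    {x : Fin (n + 1) → K} (hxC : ∀ a, eval x (F a) = 0) {l0 : Fin (n + 1)} (hl0 : x l0 = 1)
    (hG : Good (Bset D x dg) (TC F Finset.univ x) (Wsp F D x)) {p : ℕ} (hp0 : 0 < p)
    (hw : Module.finrank K (Wsp F D x) = 1) (hp : Fintype.card A + 1 + 2 * p = n + 1)
    (hsum : ∑ a, dg a = n + 1 + p) : Pln k (CP n e g) l0 x := by
  classical
  have hxC' : ∀ c ∈ (Finset.univ : Finset A), eval x (F c) = 0 := fun c _ => hxC c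
  have hxb : ∀ b, b ∉ (Finset.univ : Finset A) → eval x (F b) ≠ 0 := fun b hb =>
    absurd (Finset.mem_univ b) hb
  have hi0 : x l0 ≠ 0 := by rw [hl0]; exact one_ne_zero
  have hx0 : x ≠ 0 := by
    rintro rfl
    exact hi0 rfl
  have hker := TC_finrank hdat.hom hdat.dual hxC' hx0
  rw [Finset.card_univ] at hker
  obtain ⟨b, i, j, hb, hfin⟩ := exists_pairs (pmx x l0) (span_pmx hi0) (Bset D x dg)
    (TC F Finset.univ x) p (Wsp F D x) (im_top hdat.pos hdat.hom hdat.dual hxC' hxb hx0) hG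
    (by omega)
  choose Q hQ hbQ using fun a => mem_Bset.1 (hb a)
  have hE : Fintype.card (RI A (Fin p)) = Fintype.card (Fin (n + 1)) := by
    simp only [Fintype.card_option, Fintype.card_sum, Fintype.card_fin]
    omega
  obtain ⟨E⟩ : Nonempty (RI A (Fin p) ≃ Fin (n + 1)) := Fintype.card_eq.1 hE
  have hWx : Wsp F D x ≤ Submodule.span K {x} := by
    have h1 : Submodule.span K {x} ≤ Wsp F D x := le_sup_left
    have h2 := Submodule.eq_of_le_of_finrank_eq h1 (by rw [hw, finrank_span_singleton hx0])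
    rw [h2]
  have h2 : Wsp F D x ⊔ Submodule.span K (Set.range (fun a => b a (pmx x l0 (i a))) ∪
      Set.range (fun a => b a (pmx x l0 (j a)))) = TC F Finset.univ x := by
    refine Submodule.eq_of_le_of_finrank_eq ?_ (by rw [hfin]; omega)
    refine sup_le (Wsp_le hdat.pos hdat.hom hdat.dual hxC') ?_
    rw [Submodule.span_le]
    rintro _ (⟨a, rfl⟩ | ⟨a, rfl⟩)
    · dsimp only
      rw [hbQ a]
      exact vq_mem_TC hdat.pos hdat.hom hdat.dual hxC' (hQ a).1 (mem_Mx.1 (pmx x l0 (i a)).2)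
    · dsimp only
      rw [hbQ a]
      exact vq_mem_TC hdat.pos hdat.hom hdat.dual hxC' (hQ a).1 (mem_Mx.1 (pmx x l0 (j a)).2)
  have hdet := vol_ne hdat.hom hdat.dual hxC hi0 Q (fun _ => l0) i j E (by
      rw [← h2]
      refine sup_le (hWx.trans ?_) ?_
      · rw [Submodule.span_le, Set.singleton_subset_iff]
        exact Submodule.subset_span ⟨none, rfl⟩
      · rw [Submodule.span_le]
        rintro _ (⟨a, rfl⟩ | ⟨a, rfl⟩)
        · dsimp only
          rw [hbQ a]
          exact Submodule.subset_span ⟨some (Sum.inl a), rfl⟩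
        · dsimp only
          rw [hbQ a]
          exact Submodule.subset_span ⟨some (Sum.inr a), rfl⟩)
  obtain ⟨u0, v0, h3, h4, h5, q, h6, h7, h8, h9, h10⟩ := plane_pt hdat hxC hl0 Q hQ i j
    (by rw [Fintype.card_fin]; exact hp) (by rw [Fintype.card_fin]; exact hsum) E ⟨0, hp0⟩ hdet
  exact ⟨u0, v0, q, ⟨h3, h4, h5, h7, h8, h9⟩, h6, h10⟩

/-- The height of the points that are not on lines. -/
theorem combineE [CharZero K] (hdat : DataL k F dg D e g) (hcm : Comm D)
    (hA : Fintype.card A < n) (hd : 3 * n + 2 = 2 * ∑ a, dg a + Fintype.card A)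
    {x : Fin (n + 1) → K} (hxC : ∀ a, eval x (F a) = 0) {l0 : Fin (n + 1)} (hl0 : x l0 = 1) :
    (∃ (y : Fin (n + 1) → K) (ik : Fin (n + 1) × Fin (n + 1)), pl x y ik ≠ 0 ∧
      OnL F Finset.univ x y) ∨
    pht k x ≤ ((∑ a, dg a : ℕ) + 1) * (CL n A e g + ∑ᶠ P, g P) ∨ Pln k (CP n e g) l0 x := by
  classical
  have hn : 1 ≤ n := by omega
  have hx0 : x ≠ 0 := by
    rintro rfl
    exact zero_ne_one hl0
  have hxC' : ∀ c ∈ (Finset.univ : Finset A), eval x (F c) = 0 := fun c _ => hxC c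
  have hxb : ∀ b, b ∉ (Finset.univ : Finset A) → eval x (F b) ≠ 0 := fun b hb =>
    absurd (Finset.mem_univ b) hb
  have hP : PlOK dg D e F Finset.univ x := fun P => Or.inl fun b hb =>
    absurd (Finset.mem_univ b) hb
  have hCn := hdat.CL_nonneg
  have hg : 0 ≤ ∑ᶠ P, g P := finsum_nonneg fun P => hdat.g_nonneg P
  have hh := pht_nonneg (k := k) hx0
  have hker := TC_finrank hdat.hom hdat.dual hxC' hx0
  have hWle := Wsp_le hdat.pos hdat.hom hdat.dual hxC'
  have hwn := Submodule.finrank_mono hWle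
  have hw1 : 1 ≤ Module.finrank K (Wsp F D x) :=
    (finrank_span_singleton (K := K) hx0).symm.le.trans (Submodule.finrank_mono le_sup_left)
  have hcu : (Finset.univ : Finset A).card = Fintype.card A := Finset.card_univ
  have hplane := case_plane hdat hxC hl0
  obtain ⟨S, hS⟩ : ∃ S, S = ∑ a, dg a := ⟨_, rfl⟩
  obtain ⟨H, hH⟩ : ∃ H, H = CL n A e g := ⟨_, rfl⟩
  obtain ⟨G, hGG⟩ : ∃ G, G = ∑ᶠ P, g P := ⟨_, rfl⟩
  obtain ⟨h, hhh⟩ : ∃ h, h = pht k x := ⟨_, rfl⟩
  obtain ⟨N, hN⟩ : ∃ N, N = Module.finrank K (TC F Finset.univ x) := ⟨_, rfl⟩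
  obtain ⟨w, hw⟩ : ∃ w, w = Module.finrank K (Wsp F D x) := ⟨_, rfl⟩
  rw [← hS, ← hw] at hplane
  rw [← hS, ← hH, ← hGG, ← hhh]
  rw [← hH] at hCn
  rw [← hGG] at hg
  rw [← hhh] at hh
  rw [← hS] at hd
  rw [← hN, hcu] at hker
  rw [← hw, ← hN] at hwn
  rw [← hw] at hw1
  have hSC : 0 ≤ (S : ℤ) * H := mul_nonneg (by positivity) hCn
  have hSG : 0 ≤ (S : ℤ) * G := mul_nonneg (by positivity) hg
  have hfin : h ≤ S * H + H + G → h ≤ ((S : ℤ) + 1) * (H + G) := fun h1 => by nlinarith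
  -- points on lines of bounded height
  have hline : ∀ (y : Fin (n + 1) → K) (ik : Fin (n + 1) × Fin (n + 1)), pl x y ik ≠ 0 →
      fht k (pl x y) ≤ H → ((∃ (y : Fin (n + 1) → K) (ik : Fin (n + 1) × Fin (n + 1)),
        pl x y ik ≠ 0 ∧ OnL F Finset.univ x y) ∨ h ≤ ((S : ℤ) + 1) * (H + G) ∨
        Pln k (CP n e g) l0 x) := by
    intro y ik hik hl
    by_cases hz : OnL F Finset.univ x y
    · exact Or.inl ⟨y, ik, hik, hz⟩
    · unfold OnL at hz
      push Not at hz
      obtain ⟨c, hc, a, b, hab⟩ := hz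
      have h1 := hdat.line_ht (hxC c) hik hab
      right; left
      apply hfin
      rw [← hhh, ← hGG] at h1
      have h2 : (dg c : ℤ) * fht k (pl x y) ≤ dg c * H :=
        mul_le_mul_of_nonneg_left hl (by positivity)
      have h3 : (dg c : ℤ) ≤ S := by
        rw [hS]
        exact_mod_cast Finset.single_le_sum (f := dg) (fun _ _ => Nat.zero_le _)
          (Finset.mem_univ c)
      have h4 : (dg c : ℤ) * H ≤ S * H := mul_le_mul_of_nonneg_right h3 hCn
      linarith
  by_cases hG : Good (Bset D x dg) (TC F Finset.univ x) (Wsp F D x)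
  · rcases Nat.even_or_odd' (N - w) with ⟨p, hp | hp⟩
    · by_cases hw11 : w = 1
      · right; right
        exact hplane hG (p := p) (by omega) hw11 (by omega) (by omega)
      right; left
      have h1 := case_even hdat hn hxC' hxb hx0 hP hG (p := p) (by rw [← hw, hcu]; omega)
      rw [← hH, ← hhh, ← hS] at h1
      have h2 : (1 : ℤ) ≤ (S : ℤ) - ((n + 1 + p : ℕ) : ℤ) := by omega
      have h3 : h ≤ H := by nlinarith
      apply hfin
      linarith
    · obtain ⟨y, ik, hik, h1⟩ := case_odd hdat hxC' hxb hx0 hP hG (p := p) (by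
        rw [← hw, hcu]; omega)
      rw [← hH, ← hhh, ← hS] at h1
      have h2 : (0 : ℤ) ≤ (S : ℤ) - ((n + 1 + p + 1 : ℕ) : ℤ) := by omega
      exact hline y ik hik (by nlinarith)
  · unfold Good at hG
    push Not at hG
    obtain ⟨φ, hφ0, hφ⟩ := hG
    obtain ⟨y, hy, ik, hik⟩ := exists_pl hx0 hφ0
    rw [← Vl_eq F dg D hy, ← hN, ← hw] at hφ
    have hWV : w ≤ Module.finrank K (Vl F dg D x y) := by
      rw [hw]
      exact Submodule.finrank_mono le_sup_left
    have hL := fun h1 h2 => on_lineK hdat.pos hdat.hom hdat.dual hcm hxC hik h1 h2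
    obtain ⟨v, hv⟩ : ∃ v, v = Module.finrank K (Vl F dg D x y) := ⟨_, rfl⟩
    have hcl := case_line hdat hxC' hxb hP hik (j := v - w) (r := N - v)
      (by rw [← hw, ← hv]; rw [← hv] at hWV; omega)
      (by rw [← hv, hcu]; rw [← hv] at hφ; omega)
    rw [← hv] at hφ hWV
    rw [← hv, ← hw] at hL
    have hl0 : 0 ≤ fht k (pl x y) := fht_nonneg fun h0 => hik (by rw [h0]; rfl)
    rw [← hH, ← hhh, ← hS] at hcl
    rw [← hS] at hL
    obtain ⟨l, hll⟩ : ∃ l, l = fht k (pl x y) := ⟨_, rfl⟩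
    rw [← hll] at hcl hl0
    by_cases h1 : S + Fintype.card A + v ≤ 2 * n + 1
    · rcases hL (by omega) h1 with h2 | ⟨c, h2, a, b, hab⟩
      · exact Or.inl ⟨y, ik, hik, h2⟩
      · right; left
        have h3 := hdat.line_ht_d h2 hik hab
        rw [← hhh, ← hGG, ← hll] at h3
        have hd1 : (1 : ℤ) ≤ dg c := by
          have := hdat.pos c
          omega
        have h4 : h ≤ l + G := by
          by_contra hcon
          push Not at hcon
          have h7 : (dg c : ℤ) * (l + G + 1) ≤ dg c * h :=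
            mul_le_mul_of_nonneg_left (by omega) (by omega)
          have h8 : G ≤ dg c * G := le_mul_of_one_le_left hg hd1
          have h9 : (dg c : ℤ) * (l + G + 1) = dg c * l + dg c * G + dg c := by ring
          linarith
        obtain ⟨c1, hc1⟩ : ∃ c1 : ℤ, c1 = ((n + 1 + (N - v) : ℕ) : ℤ) - S := ⟨_, rfl⟩
        obtain ⟨s, hs⟩ : ∃ s : ℤ, s = ((N - v : ℕ) : ℤ) - ((v - w : ℕ) : ℤ) := ⟨_, rfl⟩
        have hc11 : 1 ≤ c1 := by omega
        have hsc : c1 + 1 ≤ s := by omega
        have hcS : c1 ≤ S := by omega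
        rw [← hs] at hcl
        have h5 : (S : ℤ) - ((n + 1 + (N - v) : ℕ) : ℤ) = -c1 := by rw [hc1]; ring
        rw [h5] at hcl
        have h6 : c1 * h ≤ c1 * (l + G) := mul_le_mul_of_nonneg_left h4 (by omega)
        have h7 : (c1 + 1) * l ≤ s * l := mul_le_mul_of_nonneg_right hsc hl0
        have h8 : c1 * G ≤ S * G := mul_le_mul_of_nonneg_right hcS hg
        nlinarith
    obtain ⟨s, hs⟩ : ∃ s : ℤ, s = ((N - v : ℕ) : ℤ) - ((v - w : ℕ) : ℤ) := ⟨_, rfl⟩
    have hs2 : 2 ≤ s := by omega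
    rw [← hs] at hcl
    by_cases h2 : S + Fintype.card A + v = 2 * n + 2
    · have h5 : (S : ℤ) - ((n + 1 + (N - v) : ℕ) : ℤ) = 0 := by omega
      rw [h5] at hcl
      exact hline y ik hik (by rw [← hll]; nlinarith)
    · right; left
      have h5 : 1 ≤ (S : ℤ) - ((n + 1 + (N - v) : ℕ) : ℤ) := by omega
      have h6 : h ≤ H := by nlinarith
      apply hfin
      linarith

end

end Pool.Agent.KS6_26.G
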