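import Pool.Agent.KS6_26.G.PlaneN
import Pool.Graph.R_seed8.Y741.KLines

/-!
The number of parameters of the plane curves on a generic complete intersection.
-/

set_option autoImplicit false

open MvPolynomial
open Pool.Agent.TH145.GH
open Pool.Agent.TH145.GC (Cf finite_cf)
open Pool.Agent.Y735 (card_le_adjoin)

namespace Pool.Agent.KS6_26.G

/-- The polynomials with coefficients in a subfield. -/
def CLr {Ω : Type} [Field Ω] (L : Subfield Ω) : Subring (MvPolynomial (Fin 2) Ω) where
  carrier := {f | ∀ m, coeff m f ∈ L}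
  mul_mem' := by
    intro f g hf hg m
    rw [coeff_mul]
    exact sum_mem fun x _ => mul_mem (hf _) (hg _)
  one_mem' := by
    intro m
    rw [coeff_one]
    split_ifs
    · exact one_mem _
    · exact zero_mem _
  add_mem' := by
    intro f g hf hg m
    rw [coeff_add]
    exact add_mem (hf _) (hg _)
  zero_mem' := by
    intro m
    rw [coeff_zero]
    exact zero_mem _
  neg_mem' := by
    intro f hf m
    rw [coeff_neg]
    exact neg_mem (hf _)

theorem mem_CLr {Ω : Type} [Field Ω] {L : Subfield Ω} {f : MvPolynomial (Fin 2) Ω} :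
    f ∈ CLr L ↔ ∀ m, coeff m f ∈ L := Iff.rfl

theorem C_mem_CLr {Ω : Type} [Field Ω] {L : Subfield Ω} {c : Ω} (hc : c ∈ L) :
    (C c : MvPolynomial (Fin 2) Ω) ∈ CLr L := by
  intro m
  rw [coeff_C]
  split_ifs
  · exact hc
  · exact zero_mem _

theorem X_mem_CLr {Ω : Type} [Field Ω] {L : Subfield Ω} (i : Fin 2) :
    (X i : MvPolynomial (Fin 2) Ω) ∈ CLr L := by
  intro m
  rw [coeff_X]
  split_ifs
  · exact one_mem _
  · exact zero_mem _

theorem sub_mem_CLr {Ω : Type} [Field Ω] {L : Subfield Ω} {n : ℕ} {p : Fin 3 → Fin (n + 1) → Ω}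
    (hp : ∀ s i, p s i ∈ L) {F : MvPolynomial (Fin (n + 1)) Ω} (hF : ∀ I, coeff I F ∈ L) :
    sub p F ∈ CLr L := by
  unfold sub
  rw [aeval_def, eval₂_eq]
  refine sum_mem fun I _ => mul_mem (C_mem_CLr (hF I)) (prod_mem fun i _ => pow_mem ?_ _)
  exact add_mem (add_mem (C_mem_CLr (hp _ _)) (mul_mem (C_mem_CLr (hp _ _)) (X_mem_CLr 0)))
    (mul_mem (C_mem_CLr (hp _ _)) (X_mem_CLr 1))

theorem totalDegree_sub_le {Ω : Type} [Field Ω] {n d : ℕ} (p : Fin 3 → Fin (n + 1) → Ω)
    {F : MvPolynomial (Fin (n + 1)) Ω} (hF : F.IsHomogeneous d) :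
    (sub p F).totalDegree ≤ d := by
  unfold sub
  rw [aeval_def, eval₂_eq]
  refine (totalDegree_finsetSum _ _).trans (Finset.sup_le fun I hI => ?_)
  refine (totalDegree_mul _ _).trans ?_
  have h1 : (algebraMap Ω (MvPolynomial (Fin 2) Ω) (coeff I F)).totalDegree = 0 :=
    totalDegree_C _
  rw [h1, zero_add]
  refine (totalDegree_finsetProd _ _).trans ?_
  have h2 : ∀ i : Fin (n + 1), ((C (p 0 i) + C (p 1 i) * X 0 + C (p 2 i) * X 1 :
      MvPolynomial (Fin 2) Ω) ^ I i).totalDegree ≤ I i := by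
    intro i
    refine (totalDegree_pow _ _).trans ?_
    have h3 : (C (p 0 i) + C (p 1 i) * X 0 + C (p 2 i) * X 1 :
        MvPolynomial (Fin 2) Ω).totalDegree ≤ 1 := by
      have h4 : ∀ (c : Ω) (j : Fin 2), (C c * X j : MvPolynomial (Fin 2) Ω).totalDegree ≤ 1 := by
        intro c j
        refine (totalDegree_mul _ _).trans ?_
        rw [totalDegree_C, totalDegree_X]
      refine (totalDegree_add _ _).trans (max_le ((totalDegree_add _ _).trans
        (max_le ?_ (h4 _ _))) (h4 _ _))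
      rw [totalDegree_C]
      exact Nat.zero_le _
    calc I i * _ ≤ I i * 1 := Nat.mul_le_mul_left _ h3
      _ = I i := mul_one _
  refine (Finset.sum_le_sum fun i _ => h2 i).trans ?_
  have h5 := deg_of_mem hF hI
  rw [← h5]
  exact le_rfl

/-- The monomial involves only three variables. -/
def Three {n : ℕ} (l0 u0 v0 : Fin (n + 1)) (I : Fin (n + 1) →₀ ℕ) : Prop :=
  ∀ l, l ≠ l0 → l ≠ u0 → l ≠ v0 → I l = 0

/-- The exponents in the plane. -/
noncomputable def mon (i j : ℕ) : Fin 2 →₀ ℕ := Finsupp.single 0 i + Finsupp.single 1 j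

theorem mon_inj {i j i' j' : ℕ} (h : mon i j = mon i' j') : i = i' ∧ j = j' := by
  have h0 := DFunLike.congr_fun h 0
  have h1 := DFunLike.congr_fun h 1
  simp [mon] at h0 h1
  exact ⟨h0, h1⟩

theorem mon_eq (m : Fin 2 →₀ ℕ) : m = mon (m 0) (m 1) := by
  ext i
  fin_cases i <;> simp [mon]

theorem mon_degree (i j : ℕ) : (mon i j).degree = i + j := by
  unfold mon
  rw [map_add, Finsupp.degree_single, Finsupp.degree_single]

theorem sub_three {Ω : Type} [Field Ω] {n : ℕ} {p : Fin 3 → Fin (n + 1) → Ω}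
    {l0 u0 v0 : Fin (n + 1)} (he : Ech l0 u0 v0 p) {I : Fin (n + 1) →₀ ℕ}
    (hI : Three l0 u0 v0 I) (c : Ω) :
    sub p (monomial I c) = monomial (mon (I u0) (I v0)) c := by
  obtain ⟨h1, h2, h3, ⟨e1, e2, e3⟩, ⟨e4, e5, e6⟩, ⟨e7, e8, e9⟩⟩ := id he
  unfold sub
  rw [aeval_monomial, Finsupp.prod_fintype _ _ (fun i => pow_zero _)]
  have h4 : ∏ i, (C (p 0 i) + C (p 1 i) * X 0 + C (p 2 i) * X 1 : MvPolynomial (Fin 2) Ω) ^ I i =
      X 0 ^ I u0 * X 1 ^ I v0 := by
    rw [← Finset.mul_prod_erase Finset.univ _ (Finset.mem_univ l0),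
      ← Finset.mul_prod_erase (Finset.univ.erase l0) _
        (Finset.mem_erase.2 ⟨h1.symm, Finset.mem_univ u0⟩),
      ← Finset.mul_prod_erase ((Finset.univ.erase l0).erase u0) _
        (Finset.mem_erase.2 ⟨h3.symm, Finset.mem_erase.2 ⟨h2.symm, Finset.mem_univ v0⟩⟩),
      Finset.prod_eq_one]
    · rw [e1, e2, e3, e4, e5, e6, e7, e8, e9]
      simp only [map_one, map_zero, zero_mul, add_zero, one_pow, one_mul, zero_add, mul_one]
    · intro i hi
      rw [Finset.mem_erase, Finset.mem_erase, Finset.mem_erase] at hi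
      rw [hI i hi.2.2.1 hi.2.1 hi.1, pow_zero]
  rw [h4, monomial_eq, Finsupp.prod_fintype _ _ (fun i => pow_zero _), Fin.prod_univ_two]
  have h5 : mon (I u0) (I v0) 0 = I u0 := by simp [mon]
  have h6 : mon (I u0) (I v0) 1 = I v0 := by simp [mon]
  rw [h5, h6]
  rfl

theorem three_ext {n : ℕ} {l0 u0 v0 : Fin (n + 1)} (h1 : l0 ≠ u0) (h2 : l0 ≠ v0) (h3 : u0 ≠ v0)
    {I J : Fin (n + 1) →₀ ℕ} (hI : Three l0 u0 v0 I) (hJ : Three l0 u0 v0 J)
    (hd : I.degree = J.degree) (hu : I u0 = J u0) (hv : I v0 = J v0) : I = J := by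
  have key : ∀ K : Fin (n + 1) →₀ ℕ, Three l0 u0 v0 K → K.degree = K l0 + (K u0 + K v0) := by
    intro K hK
    have h4 : K.degree = ∑ i, K i := by
      have := Finsupp.sum_fintype K (fun _ a => a) (fun _ => rfl)
      exact this
    rw [h4, ← Finset.add_sum_erase Finset.univ _ (Finset.mem_univ l0),
      ← Finset.add_sum_erase (Finset.univ.erase l0) _
        (Finset.mem_erase.2 ⟨h1.symm, Finset.mem_univ u0⟩),
      ← Finset.add_sum_erase ((Finset.univ.erase l0).erase u0) _
        (Finset.mem_erase.2 ⟨h3.symm, Finset.mem_erase.2 ⟨h2.symm, Finset.mem_univ v0⟩⟩),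
      Finset.sum_eq_zero, add_zero]
    intro i hi
    rw [Finset.mem_erase, Finset.mem_erase, Finset.mem_erase] at hi
    exact hK i hi.2.2.1 hi.2.1 hi.1
  have hl : I l0 = J l0 := by
    rw [key I hI, key J hJ] at hd
    omega
  ext i
  by_cases hi : i = l0
  · rw [hi, hl]
  by_cases hi' : i = u0
  · rw [hi', hu]
  by_cases hi'' : i = v0
  · rw [hi'', hv]
  rw [hI i hi hi' hi'', hJ i hi hi' hi'']

open Classical in
/-- The coefficients of the monomials in three variables. -/
theorem coeff_three {Ω : Type} [Field Ω] {n d : ℕ} {p : Fin 3 → Fin (n + 1) → Ω}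
    {l0 u0 v0 : Fin (n + 1)} (he : Ech l0 u0 v0 p) {F : MvPolynomial (Fin (n + 1)) Ω}
    (hF : F.IsHomogeneous d) {I : Fin (n + 1) →₀ ℕ} (hI : Three l0 u0 v0 I) (hId : I.degree = d) :
    coeff I F = coeff (mon (I u0) (I v0)) (sub p F) - coeff (mon (I u0) (I v0))
      (sub p (∑ J ∈ F.support.filter (fun J => ¬ Three l0 u0 v0 J), monomial J (coeff J F))) := by
  obtain ⟨h1, h2, h3, -⟩ := id he
  have h4 : F = ∑ J ∈ F.support.filter (fun J => Three l0 u0 v0 J), monomial J (coeff J F) +
      ∑ J ∈ F.support.filter (fun J => ¬ Three l0 u0 v0 J), monomial J (coeff J F) := by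
    rw [Finset.sum_filter_add_sum_filter_not]
    exact as_sum F
  have h5 : coeff (mon (I u0) (I v0))
      (sub p (∑ J ∈ F.support.filter (fun J => Three l0 u0 v0 J), monomial J (coeff J F))) =
      coeff I F := by
    rw [map_sum, coeff_sum]
    have h6 : ∀ J ∈ F.support.filter (fun J => Three l0 u0 v0 J),
        coeff (mon (I u0) (I v0)) (sub p (monomial J (coeff J F))) =
          if J = I then coeff J F else 0 := by
      intro J hJ
      rw [Finset.mem_filter] at hJ
      rw [sub_three he hJ.2, coeff_monomial]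
      by_cases hJI : J = I
      · rw [if_pos hJI, hJI, if_pos rfl]
      · rw [if_neg hJI, if_neg]
        intro h7
        obtain ⟨h8, h9⟩ := mon_inj h7
        exact hJI (three_ext h1 h2 h3 hJ.2 hI (by rw [deg_of_mem hF hJ.1, hId]) h8 h9)
    rw [Finset.sum_congr rfl h6]
    by_cases hs : I ∈ F.support
    · rw [Finset.sum_ite_eq' (F.support.filter (fun J => Three l0 u0 v0 J)) I, if_pos]
      rw [Finset.mem_filter]
      exact ⟨hs, hI⟩
    · rw [Finset.sum_ite_eq' (F.support.filter (fun J => Three l0 u0 v0 J)) I, if_neg,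
        notMem_support_iff.1 hs]
      rw [Finset.mem_filter]
      exact fun h => hs h.1
  rw [← h5, eq_sub_iff_add_eq, ← coeff_add, ← map_add, ← h4]

/-- The pairs of exponents of degree at most `r`. -/
def TT (r : ℕ) : Finset (ℕ × ℕ) := (Finset.range (r + 1)).biUnion Finset.HasAntidiagonal.antidiagonal

theorem mem_TT {r : ℕ} {x : ℕ × ℕ} : x ∈ TT r ↔ x.1 + x.2 ≤ r := by
  unfold TT
  rw [Finset.mem_biUnion]
  constructor
  · rintro ⟨s, hs, hx⟩
    rw [Finset.mem_range] at hs
    rw [Finset.HasAntidiagonal.mem_antidiagonal] at hx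
    omega
  · intro h
    exact ⟨x.1 + x.2, Finset.mem_range.2 (by omega), Finset.HasAntidiagonal.mem_antidiagonal.2 rfl⟩

theorem card_TT (r : ℕ) : (TT r).card = (r + 2).choose 2 := by
  unfold TT
  rw [Finset.card_biUnion]
  · have h1 : ∀ s ∈ Finset.range (r + 1), (Finset.HasAntidiagonal.antidiagonal s).card = s + 1 := fun s _ =>
      Finset.Nat.card_antidiagonal s
    rw [Finset.sum_congr rfl h1]
    induction r with
    | zero => rfl
    | succ r ih =>
      rw [Finset.sum_range_succ, ih (fun s _ => Finset.Nat.card_antidiagonal s),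
        Nat.choose_succ_succ' (r + 2) 1, Nat.choose_one_right]
      ring
  · intro s _ t _ hst
    change Disjoint _ _
    rw [Finset.disjoint_left]
    intro x hx hx'
    rw [Finset.HasAntidiagonal.mem_antidiagonal] at hx hx'
    exact hst (hx.symm.trans hx')

/-- The pairs of exponents of degree at most `d - e`. -/
def TE (d e : ℕ) : Finset (ℕ × ℕ) := if e ≤ d then TT (d - e) else ∅

theorem card_TE (d e : ℕ) : (TE d e).card = (d + 2 - e).choose 2 := by
  unfold TE
  by_cases h : e ≤ d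
  · rw [if_pos h, card_TT]
    congr 1
    omega
  · rw [if_neg h, Finset.card_empty, Nat.choose_eq_zero_of_lt]
    omega

theorem mem_TE {d e : ℕ} {x : ℕ × ℕ} : x ∈ TE d e ↔ x.1 + x.2 + e ≤ d := by
  unfold TE
  by_cases h : e ≤ d
  · rw [if_pos h, mem_TT]
    omega
  · rw [if_neg h]
    constructor
    · intro h1; exact absurd h1 (Finset.notMem_empty x)
    · intro h1; omega

/-- The number of parameters of the plane curves on a generic complete intersection. -/
theorem plane_count {k Ω : Type} [Field k] [Field Ω] [Algebra k Ω] {n : ℕ} {A : Type} [Fintype A]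
    [DecidableEq A] {dg : A → ℕ} {F : A → MvPolynomial (Fin (n + 1)) Ω}
    (hF : ∀ a, (F a).IsHomogeneous (dg a)) {l0 u0 v0 : Fin (n + 1)}
    {p : Fin 3 → Fin (n + 1) → Ω} (he : Ech l0 u0 v0 p) {g : MvPolynomial (Fin 2) Ω}
    (hg0 : g ≠ 0) (hg : ∀ a, g ∣ sub p (F a))
    (hind : AlgebraicIndependent k fun p : Cf n dg => (F p.1).coeff p.2.1) :
    ∑ a, (dg a + 2).choose 2 + 1 ≤ 3 * (n - 2) + (g.totalDegree + 2).choose 2 +
      ∑ a, (dg a + 2 - g.totalDegree).choose 2 := by
  classical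
  have hcf := finite_cf n dg
  have : Fintype (Cf n dg) := Fintype.ofFinite _
  obtain ⟨h1, h2, h3, ⟨e1, e2, e3⟩, ⟨e4, e5, e6⟩, ⟨e7, e8, e9⟩⟩ := id he
  obtain ⟨e, hee⟩ : ∃ e, e = g.totalDegree := ⟨_, rfl⟩
  rw [← hee]
  obtain ⟨m0, hm0⟩ := ne_zero_iff.1 hg0
  obtain ⟨c, hc⟩ : ∃ c, c = coeff m0 g := ⟨_, rfl⟩
  have hc0 : c ≠ 0 := by rw [hc]; exact hm0
  -- the normalised form
  obtain ⟨g', hg'⟩ : ∃ g', g' = C c⁻¹ * g := ⟨_, rfl⟩
  have hgg' : g = C c * g' := by
    rw [hg', ← mul_assoc, ← C_mul, mul_inv_cancel₀ hc0, C_1, one_mul]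
  have hg'0 : g' ≠ 0 := by
    intro h0
    rw [h0, mul_zero] at hgg'
    exact hg0 hgg'
  have hgm : coeff m0 g' = 1 := by
    rw [hg', coeff_C_mul, ← hc, inv_mul_cancel₀ hc0]
  have hdeg' : g'.totalDegree = e := by
    have h4 : (C c : MvPolynomial (Fin 2) Ω) ≠ 0 := by rwa [Ne, C_eq_zero]
    rw [hee, hgg', totalDegree_mul_of_isDomain h4 hg'0, totalDegree_C, zero_add]
  have hq : ∀ a, ∃ q, sub p (F a) = g' * q := by
    intro a
    obtain ⟨q, hq⟩ := hg a
    exact ⟨C c * q, by rw [hq, hgg']; ring⟩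
  choose q hq using hq
  have hqd : ∀ a, ∀ m : Fin 2 →₀ ℕ, dg a < m.degree + e → coeff m (q a) = 0 := by
    intro a m hm
    by_cases hqa : q a = 0
    · rw [hqa, coeff_zero]
    · have h4 := totalDegree_sub_le p (hF a)
      rw [hq a, totalDegree_mul_of_isDomain hg'0 hqa, hdeg'] at h4
      exact coeff_eq_zero_of_totalDegree_lt (by
        have h5 : ∑ i ∈ m.support, m i = m.degree := rfl
        rw [h5]
        omega)
  have hmT : ∀ m : Fin 2 →₀ ℕ, m.degree = m 0 + m 1 := by
    intro m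
    conv_lhs => rw [mon_eq m]
    exact mon_degree _ _
  -- the generators
  obtain ⟨NT, hNT⟩ : ∃ NT : Finset (Cf n dg), NT = Finset.univ.filter
    fun p : Cf n dg => ¬ Three l0 u0 v0 p.2.1 := ⟨_, rfl⟩
  obtain ⟨S1, hS1⟩ : ∃ S1 : Finset Ω, S1 = ((({l0, u0, v0} : Finset (Fin (n + 1)))ᶜ ×ˢ
    (Finset.univ : Finset (Fin 3))).image fun x => p x.2 x.1) := ⟨_, rfl⟩
  obtain ⟨S2, hS2⟩ : ∃ S2 : Finset Ω, S2 = ((TT e).erase (m0 0, m0 1)).image
    fun x => coeff (mon x.1 x.2) g' := ⟨_, rfl⟩
  obtain ⟨S3, hS3⟩ : ∃ S3 : Finset Ω, S3 = (Finset.univ.sigma fun a : A => TE (dg a) e).image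
    fun x => coeff (mon x.2.1 x.2.2) (q x.1) := ⟨_, rfl⟩
  obtain ⟨S4, hS4⟩ : ∃ S4 : Finset Ω, S4 = NT.image (fun p => (F p.1).coeff p.2.1) := ⟨_, rfl⟩
  obtain ⟨S, hS⟩ : ∃ S : Finset Ω, S = (S1 ∪ S2) ∪ (S3 ∪ S4) := ⟨_, rfl⟩
  have hn3 : ({l0, u0, v0} : Finset (Fin (n + 1))).card = 3 := by
    rw [Finset.card_eq_three]
    exact ⟨l0, u0, v0, h1, h2, h3, rfl⟩
  have hn2 : 3 ≤ n + 1 := by
    have h4 := Finset.card_le_univ ({l0, u0, v0} : Finset (Fin (n + 1)))
    rw [hn3, Fintype.card_fin] at h4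
    exact h4
  have hc1 : S1.card ≤ 3 * (n - 2) := by
    rw [hS1]
    refine Finset.card_image_le.trans ?_
    rw [Finset.card_product, Finset.card_compl, hn3, Fintype.card_fin, Finset.card_univ,
      Fintype.card_fin]
    omega
  have hm0T : (m0 0, m0 1) ∈ TT e := by
    rw [mem_TT]
    have h4 : m0.degree ≤ e := by
      by_contra hcon
      push Not at hcon
      rw [← hdeg'] at hcon
      have h5 := coeff_eq_zero_of_totalDegree_lt (f := g') (d := m0) hcon
      rw [hgm] at h5
      exact one_ne_zero h5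
    rw [hmT] at h4
    exact h4
  have hc2 : S2.card + 1 ≤ (e + 2).choose 2 := by
    rw [hS2]
    have h4 := Finset.card_image_le (s := (TT e).erase (m0 0, m0 1))
      (f := fun x => coeff (mon x.1 x.2) g')
    rw [Finset.card_erase_of_mem hm0T, card_TT] at h4
    have h5 : 0 < (e + 2).choose 2 := Nat.choose_pos (by omega)
    omega
  have hc3 : S3.card ≤ ∑ a, (dg a + 2 - e).choose 2 := by
    rw [hS3]
    refine Finset.card_image_le.trans ?_
    rw [Finset.card_sigma]
    exact (Finset.sum_congr rfl fun a _ => card_TE (dg a) e).le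
  have hc4 : S4.card + ∑ a, (dg a + 2).choose 2 ≤ Fintype.card (Cf n dg) := by
    have h4 : ∑ a, (dg a + 2).choose 2 ≤
        (Finset.univ.filter fun p : Cf n dg => Three l0 u0 v0 p.2.1).card := by
      obtain ⟨f, hf⟩ : ∃ f : (Σ a : A, {x : ℕ × ℕ // x ∈ TT (dg a)}) → Cf n dg,
          ∀ a, (f a).1 = a.1 ∧ (f a).2.1 = Finsupp.single l0 (dg a.1 - (a.2.1.1 + a.2.1.2)) +
            (Finsupp.single u0 a.2.1.1 + Finsupp.single v0 a.2.1.2) :=
        ⟨fun a => ⟨a.1, Finsupp.single l0 (dg a.1 - (a.2.1.1 + a.2.1.2)) +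
            (Finsupp.single u0 a.2.1.1 + Finsupp.single v0 a.2.1.2), by
          rw [map_add, map_add, Finsupp.degree_single, Finsupp.degree_single,
            Finsupp.degree_single]
          have := mem_TT.1 a.2.2
          omega⟩, fun _ => ⟨rfl, rfl⟩⟩
      have hinj : Function.Injective f := by
        intro a b hab
        have h5 : a.1 = b.1 := by rw [← (hf a).1, ← (hf b).1, hab]
        have h6 : (f a).2.1 u0 = (f b).2.1 u0 := by rw [hab]
        have h7 : (f a).2.1 v0 = (f b).2.1 v0 := by rw [hab]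
        rw [(hf a).2, (hf b).2] at h6 h7
        simp only [Finsupp.add_apply, Finsupp.single_eq_same, Finsupp.single_eq_of_ne h1.symm,
          Finsupp.single_eq_of_ne h3, Finsupp.single_eq_of_ne h2.symm,
          Finsupp.single_eq_of_ne h3.symm, add_zero, zero_add] at h6 h7
        obtain ⟨a1, a2, a3⟩ := a
        obtain ⟨b1, b2, b3⟩ := b
        dsimp only at h5 h6 h7
        subst h5
        have h8 : a2 = b2 := Prod.ext h6 h7
        subst h8
        rfl
      have h5 := Finset.card_le_card (s := Finset.univ.image f) (t := Finset.univ.filter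
        fun p : Cf n dg => Three l0 u0 v0 p.2.1) (by
          intro I hI
          rw [Finset.mem_image] at hI
          obtain ⟨a, -, rfl⟩ := hI
          rw [Finset.mem_filter]
          refine ⟨Finset.mem_univ _, fun l hl hlu hlv => ?_⟩
          rw [(hf a).2, Finsupp.add_apply, Finsupp.add_apply, Finsupp.single_eq_of_ne hl,
            Finsupp.single_eq_of_ne hlu, Finsupp.single_eq_of_ne hlv, add_zero, add_zero])
      rw [Finset.card_image_of_injective _ hinj, Finset.card_univ, Fintype.card_sigma] at h5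
      refine le_trans (le_of_eq ?_) h5
      refine Finset.sum_congr rfl fun a _ => ?_
      rw [Fintype.card_coe, card_TT]
    have h5 := Finset.card_filter_add_card_filter_not (s := (Finset.univ :
      Finset (Cf n dg))) (fun p => Three l0 u0 v0 p.2.1)
    rw [Finset.card_univ] at h5
    have h6 : S4.card ≤ NT.card := by
      rw [hS4]
      exact Finset.card_image_le
    rw [hNT] at h6
    omega
  have hcS : S.card ≤ (S1.card + S2.card) + (S3.card + S4.card) := by
    rw [hS]
    exact (Finset.card_union_le _ _).trans (add_le_add (Finset.card_union_le _ _)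
      (Finset.card_union_le _ _))
  -- the coefficients
  obtain ⟨L, hL⟩ : ∃ L : Subfield Ω, L = (IntermediateField.adjoin k (S : Set Ω)).toSubfield :=
    ⟨_, rfl⟩
  have hSL : ∀ s ∈ S, s ∈ L := fun s hs => by
    rw [hL]
    exact IntermediateField.subset_adjoin _ _ hs
  have hp : ∀ s i, p s i ∈ L := by
    intro s i
    by_cases hi : i ∈ ({l0, u0, v0} : Finset (Fin (n + 1)))
    · rw [Finset.mem_insert, Finset.mem_insert, Finset.mem_singleton] at hi
      rcases hi with rfl | rfl | rfl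
      · fin_cases s
        · change p 0 i ∈ L; rw [e1]; exact one_mem _
        · change p 1 i ∈ L; rw [e2]; exact zero_mem _
        · change p 2 i ∈ L; rw [e3]; exact zero_mem _
      · fin_cases s
        · change p 0 i ∈ L; rw [e4]; exact zero_mem _
        · change p 1 i ∈ L; rw [e5]; exact one_mem _
        · change p 2 i ∈ L; rw [e6]; exact zero_mem _
      · fin_cases s
        · change p 0 i ∈ L; rw [e7]; exact zero_mem _
        · change p 1 i ∈ L; rw [e8]; exact zero_mem _
        · change p 2 i ∈ L; rw [e9]; exact one_mem _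
    · apply hSL
      rw [hS, hS1]
      exact Finset.mem_union_left _ (Finset.mem_union_left _ (Finset.mem_image.2 ⟨(i, s),
        Finset.mem_product.2 ⟨Finset.mem_compl.2 hi, Finset.mem_univ _⟩, rfl⟩))
  have hgL : g' ∈ CLr L := by
    intro m
    by_cases hm : m = m0
    · rw [hm, hgm]; exact one_mem _
    · by_cases hmd : m.degree ≤ e
      · apply hSL
        rw [hS, hS2]
        refine Finset.mem_union_left _ (Finset.mem_union_right _ (Finset.mem_image.2
          ⟨(m 0, m 1), Finset.mem_erase.2 ⟨fun h => hm ?_, mem_TT.2 ?_⟩, ?_⟩))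
        · rw [mon_eq m, mon_eq m0, (Prod.mk.inj h).1, (Prod.mk.inj h).2]
        · rw [← hmT]; exact hmd
        · rw [← mon_eq]
      · rw [coeff_eq_zero_of_totalDegree_lt (by
          have h5 : ∑ i ∈ m.support, m i = m.degree := rfl
          rw [h5, hdeg']
          omega)]
        exact zero_mem _
  have hqL : ∀ a, q a ∈ CLr L := by
    intro a m
    by_cases hmd : m.degree + e ≤ dg a
    · apply hSL
      rw [hS, hS3]
      refine Finset.mem_union_right _ (Finset.mem_union_left _ (Finset.mem_image.2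
        ⟨⟨a, (m 0, m 1)⟩, Finset.mem_sigma.2 ⟨Finset.mem_univ _, mem_TE.2 ?_⟩, ?_⟩))
      · dsimp only
        rw [← hmT]; exact hmd
      · dsimp only
        rw [← mon_eq]
    · rw [hqd a m (by omega)]
      exact zero_mem _
  have hNL : ∀ a, ∀ I : Fin (n + 1) →₀ ℕ, I.degree = dg a → ¬ Three l0 u0 v0 I →
      coeff I (F a) ∈ L := by
    intro a I hI hT
    apply hSL
    rw [hS, hS4]
    refine Finset.mem_union_right _ (Finset.mem_union_right _ (Finset.mem_image.2
      ⟨⟨a, ⟨I, hI⟩⟩, ?_, rfl⟩))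
    rw [hNT, Finset.mem_filter]
    exact ⟨Finset.mem_univ _, hT⟩
  have hall : ∀ x : Cf n dg, (F x.1).coeff x.2.1 ∈ IntermediateField.adjoin k (S : Set Ω) := by
    rintro ⟨a, I, hI⟩
    change (F a).coeff I ∈ _
    have hgoal : coeff I (F a) ∈ L := by
      by_cases hT : Three l0 u0 v0 I
      · rw [coeff_three he (hF a) hT hI, hq a]
        refine sub_mem (mul_mem hgL (hqL a) _) (sub_mem_CLr hp (fun J => ?_) _)
        rw [coeff_sum]
        refine sum_mem fun J' hJ' => ?_
        rw [Finset.mem_filter] at hJ'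
        rw [coeff_monomial]
        split_ifs
        · exact hNL a J' (deg_of_mem (hF a) hJ'.1) hJ'.2
        · exact zero_mem _
      · exact hNL a I hI hT
    rw [hL] at hgoal
    exact hgoal
  have hfin := card_le_adjoin hind S hall
  rw [Nat.card_eq_fintype_card (α := Cf n dg)] at hfin
  omega

end Pool.Agent.KS6_26.G
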