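import Pool.Agent.KS6_26.G.Rows
import Pool.Graph.R_seed8.Y735.S.Cases5

/-!
The trilinear entries given by a pair, and the plane through the point.
-/

set_option autoImplicit false

open MvPolynomial FF Pool.Agent.W603.LV Pool.Agent.W603.PV Pool.Agent.TH145.GH
open Pool.Agent.Y735 (lf pm tm pl lf_single lf_pm lf_tm eval_lf eval_pm tm_smul sum_tm sum_pm vol
  vol_apply alt_tri alt_pair lf_hom po exists_scaled' ge_lf ge_coeff_mul ge_X ge_vol fht sum_two)
open Pool.Agent.Y741

namespace Pool.Agent.KS6_26.G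

/-- The entries of the product of the vector `x` and an alternating form. -/
def tri {K ι : Type} [Field K] (x : ι → K) (b : ι → ι → K) (i j l : ι) : K :=
  x i * b j l - x j * b i l + x l * b i j

section

variable {K ι : Type} [Field K] {x : ι → K} {b : ι → ι → K}

theorem tri_swap (hb : ∀ i j, b i j = -b j i) (i j l : ι) :
    tri x b j i l = -tri x b i j l := by
  unfold tri
  rw [hb j i]
  ring

theorem tri_swap' (hb : ∀ i j, b i j = -b j i) (i j l : ι) :
    tri x b i l j = -tri x b i j l := by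
  unfold tri
  rw [hb l j]
  ring

theorem tri_self (hb0 : ∀ i, b i i = 0) (i l : ι) : tri x b i i l = 0 := by
  unfold tri
  rw [hb0 i]
  ring

theorem tri_self' (hb0 : ∀ i, b i i = 0) (i l : ι) : tri x b l i i = 0 := by
  unfold tri
  rw [hb0 i]
  ring

theorem tri_cyc (hb : ∀ i j, b i j = -b j i) (hb0 : ∀ i, b i i = 0) (i l : ι) :
    tri x b i l i = 0 := by
  rw [tri_swap' hb, tri_self hb0, neg_zero]

theorem tri_rel {l0 : ι} (hx : x l0 = 1) (i u v : ι) :
    x i * tri x b l0 u v =
      tri x b i u v + x u * tri x b l0 i v - x v * tri x b l0 i u := by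
  unfold tri
  rw [hx]
  ring

/-- The plane through the point. -/
theorem exists_plane (hb : ∀ i j, b i j = -b j i) (hb0 : ∀ i, b i i = 0) {l0 u v : ι}
    (hx : x l0 = 1) (h0 : tri x b l0 u v ≠ 0) :
    l0 ≠ u ∧ l0 ≠ v ∧ u ≠ v ∧ ∃ e : Fin 3 → ι → K,
      (∀ i, x i = e 0 i + x u * e 1 i + x v * e 2 i) ∧
      (e 0 l0 = 1 ∧ e 1 l0 = 0 ∧ e 2 l0 = 0) ∧ (e 0 u = 0 ∧ e 1 u = 1 ∧ e 2 u = 0) ∧
      (e 0 v = 0 ∧ e 1 v = 0 ∧ e 2 v = 1) ∧
      ∀ s i, ∃ t : ι × ι × ι, e s i = tri x b t.1 t.2.1 t.2.2 / tri x b l0 u v := by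
  refine ⟨?_, ?_, ?_, ![fun i => tri x b i u v / tri x b l0 u v,
    fun i => tri x b l0 i v / tri x b l0 u v, fun i => tri x b l0 u i / tri x b l0 u v],
    fun i => ?_, ⟨?_, ?_, ?_⟩, ⟨?_, ?_, ?_⟩, ⟨?_, ?_, ?_⟩, fun s i => ?_⟩
  · rintro rfl
    exact h0 (tri_self hb0 _ _)
  · rintro rfl
    exact h0 (tri_cyc hb hb0 _ _)
  · rintro rfl
    exact h0 (tri_self' hb0 _ _)
  · change x i = tri x b i u v / tri x b l0 u v + x u * (tri x b l0 i v / tri x b l0 u v) +
      x v * (tri x b l0 u i / tri x b l0 u v)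
    have h1 := tri_rel (b := b) hx i u v
    rw [tri_swap' hb l0 u i] at h1
    field_simp
    linear_combination h1
  · exact div_self h0
  · change tri x b l0 l0 v / _ = 0
    rw [tri_self hb0, zero_div]
  · change tri x b l0 u l0 / _ = 0
    rw [tri_cyc hb hb0, zero_div]
  · change tri x b u u v / _ = 0
    rw [tri_self hb0, zero_div]
  · exact div_self h0
  · change tri x b l0 u u / _ = 0
    rw [tri_self' hb0, zero_div]
  · change tri x b v u v / _ = 0
    rw [tri_cyc hb hb0, zero_div]
  · change tri x b l0 v v / _ = 0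
    rw [tri_self' hb0, zero_div]
  · exact div_self h0
  · fin_cases s
    · exact ⟨(i, u, v), rfl⟩
    · exact ⟨(l0, i, v), rfl⟩
    · exact ⟨(l0, u, i), rfl⟩

end

variable {k K : Type} [Field k] [Field K] [Algebra k K] {n : ℕ} {A B : Type}
  [DecidableEq A] [Fintype A] [DecidableEq B]

/-- The pairing given by the rows. -/
noncomputable def bp (D : A → (Fin (n + 1) →₀ ℕ) → Derivation ℤ K K) (x : Fin (n + 1) → K)
    (Q : B → Fam K n A) (E : RI A B ≃ Fin (n + 1)) (R : RI A B → Fin (n + 1) → K) (b0 : B)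
    (i j : Fin (n + 1)) : K :=
  vol E (Function.update (Function.update R (Sum.inr (some (Sum.inl b0)))
    (vq D x (Q b0) (Pi.single i 1))) (Sum.inr (some (Sum.inr b0)))
    (vq D x (Q b0) (Pi.single j 1)))

theorem bp_self (D : A → (Fin (n + 1) →₀ ℕ) → Derivation ℤ K K) (x : Fin (n + 1) → K)
    (Q : B → Fam K n A) (E : RI A B ≃ Fin (n + 1)) (R : RI A B → Fin (n + 1) → K) (b0 : B)
    (i : Fin (n + 1)) : bp D x Q E R b0 i i = 0 := by
  unfold bp
  refine (vol E).map_eq_zero_of_eq _ (i := Sum.inr (some (Sum.inl b0)))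
    (j := Sum.inr (some (Sum.inr b0))) ?_ (by simp)
  rw [Function.update_self, Function.update_of_ne (by simp), Function.update_self]

theorem bp_swap (D : A → (Fin (n + 1) →₀ ℕ) → Derivation ℤ K K) (x : Fin (n + 1) → K)
    (Q : B → Fam K n A) (E : RI A B ≃ Fin (n + 1)) (R : RI A B → Fin (n + 1) → K) (b0 : B)
    (i j : Fin (n + 1)) : bp D x Q E R b0 i j = -bp D x Q E R b0 j i := by
  unfold bp
  have hne : (Sum.inr (some (Sum.inl b0)) : RI A B) ≠ Sum.inr (some (Sum.inr b0)) := by simp
  have h1 := (vol E).map_swap (Function.update (Function.update R (Sum.inr (some (Sum.inl b0)))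
    (vq D x (Q b0) (Pi.single j 1))) (Sum.inr (some (Sum.inr b0)))
    (vq D x (Q b0) (Pi.single i 1))) hne
  rw [← h1]
  congr 1
  funext k
  by_cases hk1 : k = Sum.inr (some (Sum.inl b0))
  · subst hk1
    rw [Function.update_of_ne hne, Function.update_self, Function.comp_apply,
      Equiv.swap_apply_left, Function.update_self]
  · by_cases hk2 : k = Sum.inr (some (Sum.inr b0))
    · subst hk2
      rw [Function.update_self, Function.comp_apply, Equiv.swap_apply_right,
        Function.update_of_ne hne, Function.update_self]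
    · rw [Function.update_of_ne hk2, Function.update_of_ne hk1, Function.comp_apply,
        Equiv.swap_apply_of_ne_of_ne hk1 hk2, Function.update_of_ne hk2, Function.update_of_ne hk1]

omit [DecidableEq A] in
theorem vq_pm (D : A → (Fin (n + 1) →₀ ℕ) → Derivation ℤ K K) (x : Fin (n + 1) → K)
    (Q : Fam K n A) (i j : Fin (n + 1)) : vq D x Q (pm x i j) =
      x i • vq D x Q (Pi.single j 1) - x j • vq D x Q (Pi.single i 1) := by
  rw [← map_smul, ← map_smul, ← map_sub]
  congr 1
  funext l
  unfold pm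
  rw [Pi.sub_apply, Pi.smul_apply, Pi.smul_apply, smul_eq_mul, smul_eq_mul]
  by_cases hl : l = j
  · subst hl
    by_cases hi : l = i
    · subst hi
      simp
    · rw [if_pos rfl, if_neg hi, Pi.single_eq_same, Pi.single_eq_of_ne hi]
      ring
  · by_cases hi : l = i
    · subst hi
      rw [if_neg hl, if_pos rfl, Pi.single_eq_same, Pi.single_eq_of_ne hl]
      ring
    · rw [if_neg hl, if_neg hi, Pi.single_eq_of_ne hi, Pi.single_eq_of_ne hl]
      ring

/-- The determinants with another pair. -/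
theorem vol_update {dg : A → ℕ} (D : A → (Fin (n + 1) →₀ ℕ) → Derivation ℤ K K)
    (x : Fin (n + 1) → K) (i0 : Fin (n + 1)) (Q : B → Fam K n A) (u v : B → Fin (n + 1))
    (E : RI A B ≃ Fin (n + 1)) (b0 : B) (β u' v' : Fin (n + 1)) :
    vol E (prow dg D x i0 Q (Function.update (fun _ => i0) b0 β) (Function.update u b0 u')
      (Function.update v b0 v')) =
      x β * tri x (bp D x Q E (prow dg D x i0 Q (fun _ => i0) u v) b0) β u' v' := by
  have hne : (Sum.inr (some (Sum.inl b0)) : RI A B) ≠ Sum.inr (some (Sum.inr b0)) := by simp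
  have h1 : prow dg D x i0 Q (Function.update (fun _ => i0) b0 β) (Function.update u b0 u')
      (Function.update v b0 v') = Function.update (Function.update
        (prow dg D x i0 Q (fun _ => i0) u v) (Sum.inr (some (Sum.inl b0)))
        (x β • vq D x (Q b0) (Pi.single u' 1) - x u' • vq D x (Q b0) (Pi.single β 1)))
        (Sum.inr (some (Sum.inr b0)))
        (x β • vq D x (Q b0) (Pi.single v' 1) - x v' • vq D x (Q b0) (Pi.single β 1)) := by
    funext k
    rw [← vq_pm, ← vq_pm]
    rcases k with c | _ | (b | b)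
    · rw [Function.update_of_ne (by simp), Function.update_of_ne (by simp)]
      rfl
    · rw [Function.update_of_ne (by simp), Function.update_of_ne (by simp)]
      rfl
    · rw [Function.update_of_ne (by simp)]
      by_cases hb : b = b0
      · subst hb
        rw [Function.update_self]
        simp only [prow, Function.update_self]
      · rw [Function.update_of_ne (by simpa using hb)]
        simp only [prow, Function.update_of_ne hb]
    · by_cases hb : b = b0
      · subst hb
        rw [Function.update_self]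
        simp only [prow, Function.update_self]
      · rw [Function.update_of_ne (by simpa using hb), Function.update_of_ne (by simp)]
        simp only [prow, Function.update_of_ne hb]
  have h2 := alt_pair (vol E) (prow dg D x i0 Q (fun _ => i0) u v) hne
    (vq D x (Q b0) (Pi.single β 1)) (vq D x (Q b0) (Pi.single u' 1))
    (vq D x (Q b0) (Pi.single v' 1)) (x β) (x u') (x v')
  rw [h1, h2]
  unfold tri bp
  rfl

/-- The local inequality for the entries. -/
theorem ge_tri [Fintype B] {F : Fam K n A} {dg : A → ℕ}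
    {D : A → (Fin (n + 1) →₀ ℕ) → Derivation ℤ K K} {e g : Place k K → ℤ}
    (hdat : DataL k F dg D e g) {x : Fin (n + 1) → K} (hxC : ∀ a, eval x (F a) = 0)
    {i0 : Fin (n + 1)} (hi0 : x i0 = 1) (Q : B → Fam K n A)
    (hQ : ∀ b a, (Q b a).IsHomogeneous (dg a - 1)) (P : Place k K)
    (hcQ : ∀ b a w, Ge P 0 ((Q b a).coeff w)) (u v : B → Fin (n + 1))
    (hcard : Fintype.card A + 1 + 2 * Fintype.card B = n + 1)
    (hsum : ∑ a, dg a = n + 1 + Fintype.card B) (E : RI A B ≃ Fin (n + 1)) (b0 : B)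
    (i j l : Fin (n + 1)) :
    Ge P (-((n + 1) * (e P + g P)))
      (tri x (bp D x Q E (prow dg D x i0 Q (fun _ => i0) u v) b0) i j l) := by
  obtain ⟨bb, hbb⟩ : ∃ bb, bb = bp D x Q E (prow dg D x i0 Q (fun _ => i0) u v) b0 := ⟨_, rfl⟩
  have hb : ∀ i j, bb i j = -bb j i := fun i j => by rw [hbb]; exact bp_swap _ _ _ _ _ _ _ _
  have key : ∀ i j l : Fin (n + 1), x i ≠ 0 → Ge P (-((n + 1) * (e P + g P))) (tri x bb i j l) := by
    intro i j l hi
    have h1 := plocal hdat hxC hi0 Q hQ P hcQ (Function.update (fun _ => i0) b0 i)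
      (Function.update u b0 j) (Function.update v b0 l) (fun b => by
        by_cases hb : b = b0
        · subst hb
          rw [Function.update_self]; exact hi
        · rw [Function.update_of_ne hb, hi0]
          exact one_ne_zero) hcard hsum E
    rw [vol_update, ← hbb] at h1
    have h2 : ∏ b, x (Function.update (fun _ => i0) b0 i b) = x i := by
      rw [Finset.prod_eq_single b0]
      · rw [Function.update_self]
      · intro b _ hb
        rw [Function.update_of_ne hb, hi0]
      · intro h; exact absurd (Finset.mem_univ _) h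
    rw [h2, mul_div_cancel_left₀ _ hi] at h1
    exact h1
  rw [← hbb]
  by_cases hi : x i = 0
  · by_cases hj : x j = 0
    · by_cases hl : x l = 0
      · have h0 : tri x bb i j l = 0 := by
          unfold tri
          rw [hi, hj, hl]
          ring
        rw [h0]
        exact Ge.zero
      · have h1 := key l i j hl
        rw [tri_swap hb, tri_swap' hb, neg_neg] at h1
        exact h1
    · have h1 := key j i l hj
      rw [tri_swap hb] at h1
      have := h1.neg
      rwa [neg_neg] at this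
  · exact key i j l hi

/-- The constant. -/
noncomputable def CP (n : ℕ) (e g : Place k K → ℤ) : ℤ :=
  ∑ᶠ P : Place k K, (((n : ℤ) + 1) * (e P + g P))

variable [CharZero k] [IsFF k K] [IsAlgClosed k]

/-- The plane of bounded height through a point. -/
theorem plane_pt [Fintype B] {F : Fam K n A} {dg : A → ℕ}
    {D : A → (Fin (n + 1) →₀ ℕ) → Derivation ℤ K K} {e g : Place k K → ℤ}
    (hdat : DataL k F dg D e g) {x : Fin (n + 1) → K} (hxC : ∀ a, eval x (F a) = 0)
    {l0 : Fin (n + 1)} (hl0 : x l0 = 1) (Q : B → Fam K n A) (hQ : ∀ b, Q b ∈ CS K n dg)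
    (u v : B → Fin (n + 1)) (hcard : Fintype.card A + 1 + 2 * Fintype.card B = n + 1)
    (hsum : ∑ a, dg a = n + 1 + Fintype.card B) (E : RI A B ≃ Fin (n + 1)) (b0 : B)
    (hdet : vol E (prow dg D x l0 Q (fun _ => l0) u v) ≠ 0) :
    ∃ u0 v0 : Fin (n + 1), l0 ≠ u0 ∧ l0 ≠ v0 ∧ u0 ≠ v0 ∧ ∃ p : Fin 3 → Fin (n + 1) → K,
      (∀ i, x i = p 0 i + x u0 * p 1 i + x v0 * p 2 i) ∧
      (p 0 l0 = 1 ∧ p 1 l0 = 0 ∧ p 2 l0 = 0) ∧ (p 0 u0 = 0 ∧ p 1 u0 = 1 ∧ p 2 u0 = 0) ∧
      (p 0 v0 = 0 ∧ p 1 v0 = 0 ∧ p 2 v0 = 1) ∧ ∀ s i, hgt k (p s i) ≤ CP n e g := by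
  obtain ⟨bb, hbb⟩ : ∃ bb, bb = bp D x Q E (prow dg D x l0 Q (fun _ => l0) u v) b0 := ⟨_, rfl⟩
  have hb : ∀ i j, bb i j = -bb j i := fun i j => by rw [hbb]; exact bp_swap _ _ _ _ _ _ _ _
  have hb0 : ∀ i, bb i i = 0 := fun i => by rw [hbb]; exact bp_self _ _ _ _ _ _ _
  have h1 := vol_update (dg := dg) D x l0 Q u v E b0 l0 (u b0) (v b0)
  have h2 : Function.update (fun _ : B => l0) b0 l0 = fun _ => l0 :=
    Function.update_eq_self b0 (fun _ : B => l0)
  rw [h2, Function.update_eq_self b0 u, Function.update_eq_self b0 v, hl0, one_mul, ← hbb] at h1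
  rw [h1] at hdet
  obtain ⟨h3, h4, h5, p, h6, h7, h8, h9, h10⟩ := exists_plane hb hb0 hl0 hdet
  refine ⟨u b0, v b0, h3, h4, h5, p, h6, h7, h8, h9, fun s i => ?_⟩
  obtain ⟨t, ht⟩ := h10 s i
  rw [ht]
  have hfin : {P : Place k K | ((n : ℤ) + 1) * (e P + g P) ≠ 0}.Finite := by
    refine hdat.fin.subset fun P hP => ?_
    by_contra hcon
    simp only [Set.mem_ofPred_eq, not_or, not_not] at hcon
    apply hP
    rw [hcon.1, hcon.2]
    ring
  have hge : ∀ P i j l, Ge P (-(((n : ℤ) + 1) * (e P + g P))) (tri x bb i j l) := by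
    intro P i j l
    rw [hbb]
    exact ge_tri hdat hxC hl0 Q (fun b => (hQ b).1) P (fun b a w => ((hQ b).2 a).ge P w) u v hcard
      hsum E b0 i j l
  exact Pool.Agent.Y735.S.ratio_ht (C := fun P => ((n : ℤ) + 1) * (e P + g P)) (fun P => by
      have h1 := hdat.e_nonneg P
      have h2 := hdat.g_nonneg P
      positivity) hfin (fun P => hge P _ _ _) (fun P => hge P _ _ _) hdet

end Pool.Agent.KS6_26.G
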