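import Pool.Agent.KS6_26.G.Count
import Pool.Graph.R_seed8.TH145.GH.Smooth

/-!
Generic families of forms and ring homomorphisms.
-/

set_option autoImplicit false

open MvPolynomial Pool.Agent.TH145.GH
open Pool.Agent.TH145.GC (Cf finite_cf)

namespace Pool.Agent.KS6_26.G

/-- The coefficients are algebraically independent. -/
def GenA {L : Type} [Field L] {n : ℕ} {A : Type} (dg : A → ℕ)
    (F : A → MvPolynomial (Fin (n + 1)) L) : Prop :=
  AlgebraicIndependent ℤ fun p : Cf n dg => (F p.1).coeff p.2.1

theorem GenA.map {L M : Type} [Field L] [Field M] (φ : L →+* M) {n : ℕ} {A : Type} {dg : A → ℕ}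
    {F : A → MvPolynomial (Fin (n + 1)) L} (h : GenA dg F) :
    GenA dg fun a => MvPolynomial.map φ (F a) := by
  have h1 := AlgebraicIndependent.map' h (f := φ.toIntAlgHom) φ.injective
  have h2 : (φ.toIntAlgHom ∘ fun p : Cf n dg => (F p.1).coeff p.2.1) =
      fun p : Cf n dg => (MvPolynomial.map φ (F p.1)).coeff p.2.1 := by
    funext I
    rw [coeff_map]
    rfl
  rw [h2] at h1
  exact h1

theorem GenA.of_map {L M : Type} [Field L] [Field M] (φ : L →+* M) {n : ℕ} {A : Type} {dg : A → ℕ}
    {F : A → MvPolynomial (Fin (n + 1)) L} (h : GenA dg fun a => MvPolynomial.map φ (F a)) :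
    GenA dg F := by
  refine AlgebraicIndependent.of_comp φ.toIntAlgHom ?_
  have h2 : (φ.toIntAlgHom ∘ fun p : Cf n dg => (F p.1).coeff p.2.1) =
      fun p : Cf n dg => (MvPolynomial.map φ (F p.1)).coeff p.2.1 := by
    funext I
    rw [coeff_map]
    rfl
  rw [h2]
  exact h

theorem GenA.of_base {k0 L : Type} [Field k0] [Field L] [Algebra k0 L] [CharZero L] {n : ℕ}
    {A : Type} {dg : A → ℕ} {F : A → MvPolynomial (Fin (n + 1)) L}
    (h : AlgebraicIndependent k0 fun p : Cf n dg => (F p.1).coeff p.2.1) : GenA dg F := by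
  have hcz : CharZero k0 := by
    constructor
    intro a b hab
    have h1 := congrArg (algebraMap k0 L) hab
    rw [map_natCast, map_natCast] at h1
    exact_mod_cast h1
  exact AlgebraicIndependent.restrictScalars (K := k0)
    (by
      intro a b hab
      rw [eq_intCast, eq_intCast] at hab
      exact_mod_cast hab) h

theorem GenA.rat {L : Type} [Field L] [CharZero L] {n : ℕ} {A : Type} {dg : A → ℕ}
    {F : A → MvPolynomial (Fin (n + 1)) L} (h : GenA dg F) :
    AlgebraicIndependent ℚ fun p : Cf n dg => (F p.1).coeff p.2.1 := by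
  have : Algebra.IsAlgebraic ℤ ℚ := IsLocalization.isAlgebraic ℚ (nonZeroDivisors ℤ)
  exact AlgebraicIndependent.extendScalars (R := ℤ) (A := L) ℚ h

/-- A generic quadric in projective space of dimension at most four does not contain a plane. -/
theorem no_plane {Ω : Type} [Field Ω] [CharZero Ω] {n d : ℕ} (hd : d = 2) (hn : n ≤ 4)
    {F : MvPolynomial (Fin (n + 1)) Ω} (hF : F.IsHomogeneous d)
    (hind : AlgebraicIndependent ℚ fun I : {I : Fin (n + 1) →₀ ℕ // I.degree = d} => F.coeff I.1)
    {l0 u0 v0 : Fin (n + 1)} {p : Fin 3 → Fin (n + 1) → Ω} (he : Ech l0 u0 v0 p)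
    (h : sub p F = 0) : False := by
  classical
  subst hd
  obtain ⟨h1, h2, h3, ⟨e1, e2, e3⟩, ⟨e4, e5, e6⟩, ⟨e7, e8, e9⟩⟩ := id he
  -- the restriction to the plane
  obtain ⟨Φ, hΦ⟩ : ∃ Φ : MvPolynomial (Fin (n + 1)) Ω →ₐ[Ω] MvPolynomial (Fin 3) Ω,
      Φ = aeval fun i => ∑ s, C (p s i) * X s := ⟨_, rfl⟩
  have hev : ∀ (G : MvPolynomial (Fin (n + 1)) Ω) (c : Fin 3 → Ω),
      eval c (Φ G) = eval (fun i => ∑ s, p s i * c s) G := by
    intro G c
    have h4 : (aeval c : MvPolynomial (Fin 3) Ω →ₐ[Ω] Ω).comp Φ =
        aeval (fun i => ∑ s, p s i * c s) := by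
      apply algHom_ext
      intro i
      rw [hΦ]
      simp [aeval_X]
    have h5 := DFunLike.congr_fun h4 G
    rw [AlgHom.comp_apply, aeval_eq_eval, aeval_eq_eval] at h5
    exact h5
  have hz : Φ F = 0 := by
    have h4 : X 0 * Φ F = 0 := by
      refine MvPolynomial.funext fun c => ?_
      rw [map_mul, eval_X, map_zero, hev]
      by_cases hc : c 0 = 0
      · rw [hc, zero_mul]
      · have h5 := eval_sub p ![c 1 / c 0, c 2 / c 0] F
        rw [h, map_zero] at h5
        have h6 : (fun i => ∑ s, p s i * c s) = c 0 • fun i => p 0 i +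
            p 1 i * (![c 1 / c 0, c 2 / c 0] : Fin 2 → Ω) 0 +
            p 2 i * (![c 1 / c 0, c 2 / c 0] : Fin 2 → Ω) 1 := by
          funext i
          rw [Pi.smul_apply, smul_eq_mul, Fin.sum_univ_three]
          change _ = c 0 * (p 0 i + p 1 i * (c 1 / c 0) + p 2 i * (c 2 / c 0))
          field_simp
        rw [h6, eval_smul_hom hF, ← h5, mul_zero, mul_zero]
    exact (mul_eq_zero.1 h4).resolve_left (X_ne_zero _)
  -- the gradient is orthogonal to the plane
  have hgr : ∀ (G : MvPolynomial (Fin (n + 1)) Ω) (s : Fin 3),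
      pderiv s (Φ G) = ∑ j, C (p s j) * Φ (pderiv j G) := by
    intro G s
    induction G using MvPolynomial.induction_on with
    | C a =>
      rw [← MvPolynomial.algebraMap_eq, AlgHom.commutes, Derivation.map_algebraMap]
      simp
    | add p q hp hq =>
      rw [map_add, map_add, hp, hq, ← Finset.sum_add_distrib]
      refine Finset.sum_congr rfl fun j _ => ?_
      rw [map_add, map_add, mul_add]
    | mul_X q i hq =>
      rw [map_mul, Derivation.leibniz, hq]
      have h5 : pderiv s (Φ (X i)) = C (p s i) := by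
        rw [hΦ, aeval_X, map_sum, Finset.sum_eq_single s]
        · rw [pderiv_C_mul, pderiv_X_self, mul_one]
        · intro t _ hts
          rw [pderiv_C_mul, pderiv_X_of_ne hts, mul_zero]
        · intro h; exact absurd (Finset.mem_univ s) h
      rw [h5]
      have h6 : ∀ j, Φ (pderiv j (q * X i)) = Φ (X i) * Φ (pderiv j q) +
          Φ q * if i = j then 1 else 0 := by
        intro j
        rw [Derivation.leibniz, smul_eq_mul, smul_eq_mul, pderiv_X, map_add, map_mul, map_mul,
          add_comm]
        congr 1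
        congr 1
        rw [Pi.single_apply]
        split_ifs with h7
        · rw [map_one]
        · rw [map_zero]
      simp only [h6, smul_eq_mul, mul_add, Finset.sum_add_distrib]
      rw [add_comm]
      congr 1
      · rw [Finset.mul_sum]
        refine Finset.sum_congr rfl fun j _ => ?_
        ring
      · rw [Finset.sum_eq_single i]
        · rw [if_pos rfl]
          ring
        · intro j _ hj
          rw [if_neg hj.symm, mul_zero, mul_zero]
        · intro h; exact absurd (Finset.mem_univ i) h
  -- the gradient is linear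
  have hlin : ∀ j, ∃ m : Fin (n + 1) → Ω, ∀ x : Fin (n + 1) → Ω,
      eval x (pderiv j F) = ∑ i, m i * x i := by
    intro j
    have h4 : (pderiv j F).IsHomogeneous 1 := hF.pderiv
    refine ⟨fun i => (pderiv j F).coeff (Finsupp.single i 1), fun x => ?_⟩
    have h5 : pderiv j F = ∑ i, C ((pderiv j F).coeff (Finsupp.single i 1)) * X i := by
      ext m
      rw [coeff_sum]
      by_cases hm : m.degree = 1
      · obtain ⟨i, rfl⟩ : ∃ i, m = Finsupp.single i 1 := by
          obtain ⟨i, hi⟩ : ∃ i, m i ≠ 0 := by
            by_contra hcon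
            push Not at hcon
            have h6 : m = 0 := Finsupp.ext hcon
            rw [h6, map_zero] at hm
            exact zero_ne_one hm
          refine ⟨i, ?_⟩
          have h6 : Finsupp.single i 1 ≤ m := by
            rw [Finsupp.single_le_iff]
            omega
          obtain ⟨r, hr⟩ := exists_add_of_le h6
          rw [hr, map_add, Finsupp.degree_single] at hm
          have h7 : r.degree = 0 := by omega
          rw [Finsupp.degree_eq_zero_iff] at h7
          rw [hr, h7, add_zero]
        rw [Finset.sum_eq_single i]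
        · rw [coeff_C_mul, coeff_X, if_pos rfl, mul_one]
        · intro t _ hts
          rw [coeff_C_mul, coeff_X, if_neg, mul_zero]
          intro h7
          exact hts (Finsupp.single_left_injective one_ne_zero h7)
        · intro h; exact absurd (Finset.mem_univ i) h
      · rw [h4.coeff_eq_zero hm, Finset.sum_eq_zero]
        intro i _
        rw [coeff_C_mul, coeff_X, if_neg, mul_zero]
        rintro rfl
        exact hm (Finsupp.degree_single _ _)
    conv_lhs => rw [h5]
    rw [map_sum]
    exact Finset.sum_congr rfl fun i _ => by rw [map_mul, eval_C, eval_X]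
  choose m hm using hlin
  -- a singular point
  obtain ⟨T, hT⟩ : ∃ T : (Fin 3 → Ω) →ₗ[Ω]
      ({j : Fin (n + 1) // j ∉ ({l0, u0, v0} : Finset (Fin (n + 1)))} → Ω),
      ∀ c j, T c j = eval (fun i => ∑ s, p s i * c s) (pderiv j.1 F) := by
    refine ⟨LinearMap.pi fun j => ∑ i, (m j.1 i) • ∑ s, (p s i) • LinearMap.proj s, ?_⟩
    intro c j
    rw [hm, LinearMap.pi_apply, LinearMap.sum_apply]
    refine Finset.sum_congr rfl fun i _ => ?_
    rw [LinearMap.smul_apply, LinearMap.sum_apply, smul_eq_mul]
    congr 1
  have hn3 : ({l0, u0, v0} : Finset (Fin (n + 1))).card = 3 := by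
    rw [Finset.card_eq_three]
    exact ⟨l0, u0, v0, h1, h2, h3, rfl⟩
  have hker : LinearMap.ker T ≠ ⊥ := by
    apply LinearMap.ker_ne_bot_of_finrank_lt
    rw [Module.finrank_pi, Module.finrank_pi, Fintype.card_fin]
    have h4 : Fintype.card {j : Fin (n + 1) // j ∉ ({l0, u0, v0} : Finset (Fin (n + 1)))} =
        n + 1 - 3 := by
      have h5 := Fintype.card_of_subtype (p := fun j : Fin (n + 1) =>
        j ∉ ({l0, u0, v0} : Finset (Fin (n + 1)))) (({l0, u0, v0} : Finset (Fin (n + 1)))ᶜ)
        (fun x => Finset.mem_compl)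
      rw [h5, Finset.card_compl, hn3, Fintype.card_fin]
    rw [h4]
    omega
  obtain ⟨c, hc, hc0⟩ := (Submodule.ne_bot_iff _).1 hker
  rw [LinearMap.mem_ker] at hc
  obtain ⟨w, hw⟩ : ∃ w : Fin (n + 1) → Ω, w = fun i => ∑ s, p s i * c s := ⟨_, rfl⟩
  have hout : ∀ j, j ∉ ({l0, u0, v0} : Finset (Fin (n + 1))) → eval w (pderiv j F) = 0 := by
    intro j hj
    have h4 := congrFun hc ⟨j, hj⟩
    rw [hT, ← hw] at h4
    exact h4
  have horth : ∀ s, ∑ j, p s j * eval w (pderiv j F) = 0 := by
    intro s
    have h4 := hgr F s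
    rw [hz, map_zero] at h4
    have h5 := congrArg (eval c) h4
    rw [map_zero, map_sum] at h5
    rw [h5]
    refine Finset.sum_congr rfl fun j _ => ?_
    rw [map_mul, eval_C, hev, ← hw]
  have hsum : ∀ s, p s l0 * eval w (pderiv l0 F) + (p s u0 * eval w (pderiv u0 F) +
      p s v0 * eval w (pderiv v0 F)) = 0 := by
    intro s
    rw [← horth s, ← Finset.sum_subset (Finset.subset_univ ({l0, u0, v0} :
      Finset (Fin (n + 1)))) (fun j _ hj => by rw [hout j hj, mul_zero]),
      Finset.sum_insert (by simp [h1, h2]), Finset.sum_insert (by simp [h3]),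
      Finset.sum_singleton]
  have hall : ∀ j, eval w (pderiv j F) = 0 := by
    intro j
    by_cases hj : j ∈ ({l0, u0, v0} : Finset (Fin (n + 1)))
    · rw [Finset.mem_insert, Finset.mem_insert, Finset.mem_singleton] at hj
      rcases hj with rfl | rfl | rfl
      · have h4 := hsum 0
        rw [e1, e4, e7, one_mul, zero_mul, zero_mul, add_zero, add_zero] at h4
        exact h4
      · have h4 := hsum 1
        rw [e2, e5, e8, one_mul, zero_mul, zero_mul, add_zero, zero_add] at h4
        exact h4
      · have h4 := hsum 2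
        rw [e3, e6, e9, one_mul, zero_mul, zero_mul, zero_add, zero_add] at h4
        exact h4
    · exact hout j hj
  have hw0 := smooth_of_indep (by norm_num) hF hind w hall
  apply hc0
  have h4 := congrFun hw0 l0
  have h5 := congrFun hw0 u0
  have h6 := congrFun hw0 v0
  rw [hw] at h4 h5 h6
  simp only [Fin.sum_univ_three, e1, e2, e3, e4, e5, e6, e7, e8, e9, one_mul, zero_mul, add_zero,
    zero_add, Pi.zero_apply] at h4 h5 h6
  funext s
  fin_cases s
  · exact h4
  · exact h5
  · exact h6

end Pool.Agent.KS6_26.G
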