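import Pool.Agent.KS6_26.G.Fin
import Pool.Graph.R_seed8.Y741.KTop
import Pool.Graph.R_seed8.Y735.S.Fin5

/-!
Rational points on generic complete intersections on the borderline: assembly.
-/

set_option autoImplicit false

open MvPolynomial FF Pool.Agent.W603.PV Pool.Agent.W602.GT Pool.Agent.TH145.MG
open Pool.Agent.TH145.GH
open Pool.Agent.TH145.GC (Gen Cf finite_cf Rt exists_big indep_scale)
open Pool.Agent.Y735 (rho eval_rho rho_X pl fht rho_deg fht_nonneg)
open Pool.Agent.Y741
open LinearAlgebra.Projectivization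

namespace Pool.Agent.KS6_26.G

/-- Finiteness of the rational points that do not lie on lines. -/
theorem fin_scaled_E {k0 K : Type} [Field k0] [Field K] [Algebra k0 K] [IsAlgClosed K]
    [CharZero K] [IsAlgClosed k0] {n : ℕ} {A : Type} [Fintype A] [DecidableEq A] {dg : A → ℕ}
    (hpos : ∀ a, 0 < dg a) (hA : Fintype.card A < n)
    (hd : 3 * n + 2 = 2 * ∑ a, dg a + Fintype.card A) (hcr : Crit n dg)
    (F : A → MvPolynomial (Fin (n + 1)) K) (hF : ∀ a, (F a).IsHomogeneous (dg a))
    (I0 : A → Fin (n + 1) →₀ ℕ) (h0 : ∀ a, (F a).coeff (I0 a) ≠ 0)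
    (hind : AlgebraicIndependent k0 fun p : Rt dg I0 =>
      (F p.1).coeff p.2.1 / (F p.1).coeff (I0 p.1))
    (T : Finset K) (l0 : Fin (n + 1)) :
    {x : Fin (n + 1) → K | (∀ j, x j ∈ IntermediateField.adjoin k0 (T : Set K)) ∧ x l0 = 1 ∧
      (∀ a, eval x (F a) = 0) ∧ ¬ Exc 1 F Finset.univ x}.Finite := by
  classical
  obtain ⟨K', _, _, hK', hc, t, ht⟩ := exists_big K A
  let _ : Algebra k0 K' := ((algebraMap K K').comp (algebraMap k0 K)).toAlgebra
  have hst : IsScalarTower k0 K K' := IsScalarTower.of_algebraMap_eq fun _ => rfl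
  have hI0 : ∀ a, (I0 a).degree = dg a := fun a =>
    deg_of_mem (hF a) (mem_support_iff.2 (h0 a))
  have h1 := indep_scale (k0 := k0) (K' := K') F I0 hI0 h0 hind ht
  obtain ⟨G, hG⟩ : ∃ G : A → MvPolynomial (Fin (n + 1)) K', ∀ a, G a =
    MvPolynomial.C (t a / algebraMap K K' ((F a).coeff (I0 a))) * map (algebraMap K K') (F a) :=
    ⟨_, fun _ => rfl⟩
  have h2 : ∀ a, (G a).IsHomogeneous (dg a) := fun a => by
    have := (isHomogeneous_C (Fin (n + 1)) (t a / algebraMap K K' ((F a).coeff (I0 a)))).mul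
      ((hF a).map (algebraMap K K'))
    rwa [zero_add, ← hG] at this
  have h4 : (fun p : Cf n dg => (G p.1).coeff p.2.1) =
      fun p => t p.1 / algebraMap K K' ((F p.1).coeff (I0 p.1)) *
        algebraMap K K' ((F p.1).coeff p.2.1) := by
    funext p
    rw [hG, coeff_C_mul, coeff_map]
  have h5 : AlgebraicIndependent k0 (fun p : Cf n dg => (G p.1).coeff p.2.1) := by
    rw [h4]
    exact h1
  have ha0 : ∀ a, algebraMap K K' ((F a).coeff (I0 a)) ≠ 0 := fun a => by
    rw [Ne, map_eq_zero]; exact h0 a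
  have ht0 : ∀ a, t a ≠ 0 := fun a => by
    intro h5
    have h6 : Transcendental K (t a) := ht.transcendental a
    rw [h5] at h6
    exact h6 (by
      have := isAlgebraic_algebraMap (R := K) (A := K') 0
      rwa [map_zero] at this)
  have h3 := fin_points_E (k0 := k0) hpos hA hd hcr h2 h5 (T.image (algebraMap K K')) l0
  have hev : ∀ (a : A) (x : Fin (n + 1) → K), eval (fun j => algebraMap K K' (x j)) (G a) =
      t a / algebraMap K K' ((F a).coeff (I0 a)) * algebraMap K K' (eval x (F a)) := by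
    intro a x
    rw [hG, map_mul, eval_map, eval_C]
    have h5 := eval₂_comp_left (algebraMap K K') (RingHom.id K) x (F a)
    rw [RingHom.comp_id] at h5
    congr 1
    exact h5.symm
  have hinj : Function.Injective fun (x : Fin (n + 1) → K) j => algebraMap K K' (x j) := by
    intro x x' h
    funext j
    exact (algebraMap K K').injective (congrFun h j)
  refine Set.Finite.of_finite_image (h3.subset ?_) (f := fun x j => algebraMap K K' (x j))
    hinj.injOn
  rintro _ ⟨x, ⟨hx, hxl, hxC, hxX⟩, rfl⟩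
  refine ⟨fun j => ?_, ?_, fun a => ?_, fun hX => hxX ?_⟩
  · have h4 : (IntermediateField.adjoin k0 (T : Set K)).map (IsScalarTower.toAlgHom k0 K K') =
        IntermediateField.adjoin k0 ((T.image (algebraMap K K') : Finset K') : Set K') := by
      rw [IntermediateField.adjoin_map, Finset.coe_image]
      rfl
    rw [← h4]
    exact ⟨x j, hx j, rfl⟩
  · dsimp only
    rw [hxl, map_one]
  · rw [hev, hxC a, map_zero, mul_zero]
  · exact exc_descend hF (fun c _ => hxC c)
      (exc_scale (fun a => div_ne_zero (ht0 a) (ha0 a)) hG hX)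

section

variable {k K : Type} [Field k] [Field K] [IsAlgClosed K] [CharZero K] [Algebra k K] {n : ℕ}
  {A : Type} [Fintype A] {d : A → ℕ}

omit [IsAlgClosed K] [CharZero K] [Fintype A] in
/-- The coefficients without the indices of degree. -/
theorem ind_of_gen {F : A → MvPolynomial (Fin (n + 1)) K}
    {I0 : ∀ a, {I : Fin (n + 1) →₀ ℕ // I.degree = d a}}
    (hgen : AlgebraicIndependent k
      fun p : (a : A) × {I : {I : Fin (n + 1) →₀ ℕ // I.degree = d a} // I ≠ I0 a} =>
        (F p.1).coeff p.2.1.1 / (F p.1).coeff (I0 p.1).1) :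
    AlgebraicIndependent k fun p : Pool.Agent.TH145.GC.Rt d (fun a => (I0 a).1) =>
      (F p.1).coeff p.2.1 / (F p.1).coeff ((fun a => (I0 a).1) p.1) := by
  have h2 := hgen.comp (fun p : Pool.Agent.TH145.GC.Rt d (fun a => (I0 a).1) =>
    (⟨p.1, ⟨p.2.1, p.2.2.1⟩, fun h => p.2.2.2 (congrArg Subtype.val h)⟩ :
      (a : A) × {I : {I : Fin (n + 1) →₀ ℕ // I.degree = d a} // I ≠ I0 a})) (by
        rintro ⟨a, ⟨I, hI⟩⟩ ⟨a', ⟨I', hI'⟩⟩ h
        have e1 : a = a' := congrArg Sigma.fst h
        subst e1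
        have e2 := eq_of_heq (Sigma.mk.inj_iff.1 h).2
        have e3 : I = I' := congrArg (fun z => z.1.1) e2
        subst e3
        rfl)
  exact h2

/-- The lines are contained in a proper closed subset. -/
theorem closed_lines (hA : Fintype.card A < n) (hd0 : ∀ a, 0 < d a)
    (hS : n + 2 ≤ ∑ a, d a)
    (F : A → MvPolynomial (Fin (n + 1)) K) (hF : ∀ a, (F a).IsHomogeneous (d a))
    (I0 : ∀ a, {I : Fin (n + 1) →₀ ℕ // I.degree = d a}) (h0 : ∀ a, (F a).coeff (I0 a).1 ≠ 0)
    (hgen : AlgebraicIndependent k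
      fun p : (a : A) × {I : {I : Fin (n + 1) →₀ ℕ // I.degree = d a} // I ≠ I0 a} =>
        (F p.1).coeff p.2.1.1 / (F p.1).coeff (I0 p.1).1) :
    ∃ (H : MvPolynomial (Fin (n + 1)) K) (e : ℕ), H.IsHomogeneous e ∧
      (∃ v, (∀ a, eval v (F a) = 0) ∧ eval v H ≠ 0) ∧
      ∀ W, LineIn F W → ∀ v ∈ W, v ≠ 0 → eval v H = 0 := by
  classical
  have hind := ind_of_gen hgen
  have hcu : (Finset.univ : Finset A).card = Fintype.card A := Finset.card_univ
  obtain ⟨H, e, hH0, hHe, hH⟩ := exists_H_exc (k := k) Finset.univ hS F hF _ h0 hind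
  obtain ⟨v, hv1, hv2, hv3⟩ := exists_good hd0 Finset.univ (by rw [hcu]; omega) F hF _ h0 hind hH0
  refine ⟨rename (Fin.castLE (Nat.sub_le _ _)) H, e, hHe.rename_isHomogeneous,
    ⟨v, fun a => hv1 a (Finset.mem_univ a), by rw [eval_rename]; exact hv3⟩,
    fun W hW v hv hv0 => ?_⟩
  rw [eval_rename]
  obtain ⟨p, hp⟩ : ∃ p, p = Projectivization.mk K v hv0 := ⟨_, rfl⟩
  obtain ⟨u, hu⟩ := Projectivization.exists_smul_eq_mk_rep K v hv0
  rw [← hp] at hu
  have hu0 : (u : K) ≠ 0 := u.ne_zero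
  have hu' : p.rep = (u : K) • v := hu.symm
  have hbd : Bd F Finset.univ = ∅ := by
    ext q
    refine ⟨?_, fun h => h.elim⟩
    rintro ⟨b, hb, -⟩
    exact hb (Finset.mem_univ b)
  have h6 := hH W ⟨hW.1, fun c _ => hW.2 c⟩ (by
    rw [hbd, Set.inter_empty, Set.encard_empty]
    exact zero_le) p (by
    change p.rep ∈ W
    rw [hu']
    exact W.smul_mem _ hv) (by
    rw [hbd]
    exact fun h => h.elim)
  have h7 : (fun l => p.rep (Fin.castLE (Nat.sub_le _ _) l)) = (u : K) •
      (fun l : Fin (n + 1 - (Finset.univ : Finset A).card) =>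
        v (Fin.castLE (Nat.sub_le _ _) l)) := by
    funext l
    rw [hu']
    rfl
  rw [h7, eval_smul_fin hHe] at h6
  exact (mul_eq_zero.1 h6).resolve_left (pow_ne_zero _ hu0)

/-- Rational points on generic complete intersections on the borderline. -/
theorem border [DecidableEq A] (hA : Fintype.card A < n) (hd0 : ∀ a, 0 < d a)
    (hd : 3 * n + 2 = 2 * ∑ a, d a + Fintype.card A) (hcr : Crit n d)
    (F : A → MvPolynomial (Fin (n + 1)) K) (hF : ∀ a, (F a).IsHomogeneous (d a))
    (I0 : ∀ a, {I : Fin (n + 1) →₀ ℕ // I.degree = d a}) (h0 : ∀ a, (F a).coeff (I0 a).1 ≠ 0)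
    (hgen : AlgebraicIndependent k
      fun p : (a : A) × {I : {I : Fin (n + 1) →₀ ℕ // I.degree = d a} // I ≠ I0 a} =>
        (F p.1).coeff p.2.1.1 / (F p.1).coeff (I0 p.1).1) (T : Finset K) :
    {p | p ∈ EPts F (IntermediateField.adjoin (algebraicClosure k K)
      (T : Set K)).toSubfield ∧ ¬ ∃ W, LineIn F W ∧ p.rep ∈ W}.Finite := by
  classical
  have hac : IsAlgClosed (algebraicClosure k K) := (algebraicClosure.isAlgClosure k K).isAlgClosed
  have hind := ind_of_gen hgen
  have h1 := proj_finite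
    (IntermediateField.adjoin (algebraicClosure k K) (T : Set K)).toSubfield
    {x : Fin (n + 1) → K | (∀ a, eval x (F a) = 0) ∧ ¬ ∃ W, LineIn F W ∧ x ∈ W} (by
      rintro x ⟨hx, hxL⟩ a ha
      refine ⟨fun b => ?_, fun ⟨W, hW, hxW⟩ => hxL ⟨W, hW, ?_⟩⟩
      · rw [eval_smul_hom (hF b), hx b, mul_zero]
      · have h2 := W.smul_mem a⁻¹ hxW
        rwa [smul_smul, inv_mul_cancel₀ ha, one_smul] at h2) (fun l0 => by
      have h2 := fin_scaled_E (k0 := algebraicClosure k K) hd0 hA hd hcr F hF _ h0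
        hind.algebraicClosure T l0
      refine h2.subset ?_
      rintro x ⟨hx, hxl, hxF, hxL⟩
      exact ⟨hx, hxl, hxF, fun h => hxL (lineIn_of_exc h)⟩)
  refine h1.subset ?_
  rintro p ⟨⟨hp, x, hx, hx0, hpx⟩, hpW⟩
  obtain ⟨u, hu⟩ := Projectivization.exists_smul_eq_mk_rep K x hx0
  rw [← hpx] at hu
  have hu' : x = (u⁻¹ : Kˣ) • p.rep := by rw [← hu, smul_smul, inv_mul_cancel, one_smul]
  have hu'' : x = ((u⁻¹ : Kˣ) : K) • p.rep := hu'
  refine ⟨x, ⟨fun a => ?_, fun ⟨W, hW, hxW⟩ => hpW ⟨W, hW, ?_⟩⟩, hx, hx0, hpx⟩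
  · rw [hu'', eval_smul_hom (hF a), hp a, mul_zero]
  · have h7 : p.rep = (u : K) • x := hu.symm
    rw [h7]
    exact W.smul_mem _ hxW

/-- There are no lines. -/
theorem no_lines_gen (hd : 2 * n ≤ ∑ a, d a + Fintype.card A + 1)
    (F : A → MvPolynomial (Fin (n + 1)) K) (hF : ∀ a, (F a).IsHomogeneous (d a))
    (I0 : ∀ a, {I : Fin (n + 1) →₀ ℕ // I.degree = d a}) (h0 : ∀ a, (F a).coeff (I0 a).1 ≠ 0)
    (hgen : AlgebraicIndependent k
      fun p : (a : A) × {I : {I : Fin (n + 1) →₀ ℕ // I.degree = d a} // I ≠ I0 a} =>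
        (F p.1).coeff p.2.1.1 / (F p.1).coeff (I0 p.1).1)
    (W : Submodule K (Fin (n + 1) → K)) : ¬ LineIn F W := by
  classical
  intro hW
  obtain ⟨x, hx, hx0⟩ : ∃ x ∈ W, x ≠ 0 := by
    have h1 : W ≠ ⊥ := by
      rintro rfl
      have := hW.1
      rw [finrank_bot] at this
      omega
    exact Submodule.exists_mem_ne_zero_of_ne_bot h1
  obtain ⟨y, ik, hik, h1, -⟩ := exc_of_lineIn d hW hx hx0
  exact no_line_K (k := k) hd F hF _ h0 (ind_of_gen hgen) (li_of_pl hik)
    fun c a b => h1 c (Finset.mem_univ c) a b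

/-- The condition in terms of the conditions for a plane. -/
theorem crit_of [DecidableEq A] (hn : 2 ≤ n) (hd : 3 * n + 2 = 2 * ∑ a, d a + Fintype.card A)
    (h : ∀ a, 3 * (n - 2) + (d a + 2).choose 2 < ∑ b, (d b + 2).choose 2) : Crit n d := by
  intro a
  left
  have h1 : ∀ m : ℕ, (m + 2).choose 2 = m.choose 2 + (2 * m + 1) := by
    intro m
    have e1 := Nat.choose_succ_succ' (m + 1) 1
    have e2 := Nat.choose_succ_succ' m 1
    rw [Nat.choose_one_right] at e1 e2
    have e3 : (m + 2).choose 2 = (m + 1 + 1).choose (1 + 1) := rfl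
    have e4 : (m + 1).choose 2 = (m + 1).choose (1 + 1) := rfl
    have e5 : m.choose 2 = m.choose (1 + 1) := rfl
    omega
  have h2 : ∑ b, (d b + 2).choose 2 = ∑ b, (d b).choose 2 + (2 * ∑ b, d b + Fintype.card A) := by
    rw [Finset.sum_congr rfl fun b _ => h1 (d b), Finset.sum_add_distrib, Finset.sum_add_distrib,
      ← Finset.mul_sum, Finset.sum_const, Finset.card_univ, smul_eq_mul, mul_one]
  have h3 := h a
  rw [h1, h2, ← hd] at h3
  have h4 := Finset.add_sum_erase Finset.univ (fun b => (d b).choose 2) (Finset.mem_univ a)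
  omega

/-- Rational points on generic surfaces. -/
theorem surfaces (hA : Fintype.card A + 2 = n) (hd2 : ∀ a, 2 ≤ d a) (hdn : n + 2 ≤ ∑ a, d a)
    (F : A → MvPolynomial (Fin (n + 1)) K) (hF : ∀ a, (F a).IsHomogeneous (d a))
    (I0 : ∀ a, {I : Fin (n + 1) →₀ ℕ // I.degree = d a}) (h0 : ∀ a, (F a).coeff (I0 a).1 ≠ 0)
    (hgen : AlgebraicIndependent k
      fun p : (a : A) × {I : {I : Fin (n + 1) →₀ ℕ // I.degree = d a} // I ≠ I0 a} =>
        (F p.1).coeff p.2.1.1 / (F p.1).coeff (I0 p.1).1) (T : Finset K) :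
    (EPts F (IntermediateField.adjoin (algebraicClosure k K) (T : Set K)).toSubfield).Finite := by
  classical
  have hd0 : ∀ a, 0 < d a := fun a => by have := hd2 a; omega
  rcases Nat.lt_or_ge (∑ a, d a) (n + 3) with hlt | hge
  · have hS : ∑ a, d a = n + 2 := by omega
    by_cases hA1 : Fintype.card A = 1
    · -- quintic surfaces
      obtain ⟨a, ha⟩ := Fintype.card_eq_one_iff.1 hA1
      have hn3 : n = 3 := by omega
      subst hn3
      have hsum : ∑ b, d b = d a := by
        rw [Finset.sum_eq_single a (fun b _ hb => absurd (ha b) hb)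
          (fun h => absurd (Finset.mem_univ a) h)]
      have hda : 5 = d a := by omega
      have hac : IsAlgClosed (algebraicClosure k K) :=
        (algebraicClosure.isAlgClosure k K).isAlgClosed
      have hgen' : AlgebraicIndependent (algebraicClosure k K)
          fun I : {I : {I : Fin (3 + 1) →₀ ℕ // I.degree = d a} // I ≠ I0 a} =>
            (F a).coeff I.1.1 / (F a).coeff (I0 a).1 := by
        exact hgen.algebraicClosure.comp
          (fun I : {I : {I : Fin (3 + 1) →₀ ℕ // I.degree = d a} // I ≠ I0 a} =>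
          (⟨a, I⟩ : (a : A) × {I : {I : Fin (3 + 1) →₀ ℕ // I.degree = d a} // I ≠ I0 a}))
          (fun I J h => eq_of_heq (Sigma.mk.inj_iff.1 h).2)
      have hFa := hF a
      obtain ⟨Ia, hIa⟩ : ∃ Ia, Ia = I0 a := ⟨_, rfl⟩
      have h0a := h0 a
      rw [← hIa] at h0a hgen'
      obtain ⟨da, hda'⟩ : ∃ da, da = d a := ⟨_, rfl⟩
      rw [← hda'] at hda hFa
      clear hIa
      revert Ia
      rw [← hda', ← hda]
      intro Ia hgen' h0a
      rw [← hda] at hFa
      have h1 := Pool.Agent.TH145.GH.proj_finite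
        (IntermediateField.adjoin (algebraicClosure k K) (T : Set K)).toSubfield
        {x : Fin (3 + 1) → K | eval x (F a) = 0} (by
          intro x hx a ha
          change eval (a • x) _ = 0
          rw [Pool.Agent.TH145.GH.eval_smul_hom hFa, hx, mul_zero]) (fun l0 => by
          refine (Pool.Agent.Y735.S.fin_scaled_5 (k := algebraicClosure k K) hFa Ia h0a hgen' T
            l0).subset ?_
          rintro x ⟨hx, hxl, hxF⟩
          exact ⟨hx, hxl, hxF⟩)
      refine h1.subset ?_
      rintro p ⟨hpF, x, hx, hx0, hpx⟩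
      refine ⟨x, ?_, hx, hx0, hpx⟩
      change eval x (F a) = 0
      obtain ⟨u, hu⟩ := Projectivization.exists_smul_eq_mk_rep K x hx0
      rw [← hpx] at hu
      have hu' : x = (u⁻¹ : Kˣ) • p.rep := by rw [← hu, smul_smul, inv_mul_cancel, one_smul]
      have hu'' : x = ((u⁻¹ : Kˣ) : K) • p.rep := hu'
      rw [hu'', eval_smul_hom (hF a), hpF a, mul_zero]
    · have hA0 : Fintype.card A ≠ 0 := by
        intro h
        have h1 := Fintype.card_eq_zero_iff.1 h
        rw [Finset.univ_eq_empty, Finset.sum_empty] at hS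
        omega
      refine (border (by omega) hd0 (by omega) ?_ F hF I0 h0 hgen T).subset fun p hp =>
        ⟨hp, fun ⟨W, hW, _⟩ => no_lines_gen (by omega) F hF I0 h0 hgen W hW⟩
      intro a
      have h1 : ∑ b ∈ Finset.univ.erase a, d b + d a = n + 2 := by
        rw [← hS, Finset.sum_erase_add _ _ (Finset.mem_univ a)]
      have h2 : (Finset.univ.erase a).card + 1 = Fintype.card A := by
        rw [Finset.card_erase_of_mem (Finset.mem_univ a), Finset.card_univ]
        omega
      have h3 : ∑ b ∈ Finset.univ.erase a, d b ≤ ∑ b ∈ Finset.univ.erase a, (d b).choose 2 +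
          (Finset.univ.erase a).card := by
        rw [Finset.card_eq_sum_ones, ← Finset.sum_add_distrib]
        refine Finset.sum_le_sum fun b _ => ?_
        obtain ⟨m, hm⟩ := Nat.exists_eq_add_of_le (hd2 b)
        have h4 := two_choose (m + 1)
        rw [hm, show 2 + m = m + 1 + 1 by ring]
        nlinarith
      have h4 : 2 * (Finset.univ.erase a).card ≤ ∑ b ∈ Finset.univ.erase a, d b := by
        rw [Finset.card_eq_sum_ones, Finset.mul_sum]
        refine Finset.sum_le_sum fun b _ => ?_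
        have := hd2 b
        omega
      have h5 : d a ≤ 4 := by omega
      rcases Nat.lt_or_ge (d a) 4 with h6 | h6
      · left
        omega
      · right
        refine ⟨by omega, ?_⟩
        have h7 : (Finset.univ.erase a).card = 1 := by omega
        obtain ⟨b, hb⟩ := Finset.card_eq_one.1 h7
        rw [hb, Finset.sum_singleton] at h1
        refine ⟨b, ?_, by omega⟩
        have h8 : b ∈ Finset.univ.erase a := by rw [hb]; exact Finset.mem_singleton_self b
        exact (Finset.mem_erase.1 h8).1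
  · obtain ⟨-, -, h1, -⟩ := generic_intersections (by omega) hd0 (by omega) F hF I0 h0 hgen
    exact (h1 (by omega)).2 T

/-- Rational points on generic complete intersections, including the borderline. -/
theorem off_lines (hA : Fintype.card A < n) (hd0 : ∀ a, 0 < d a)
    (hd : 3 * n + 2 ≤ 2 * ∑ a, d a + Fintype.card A)
    (hcr : 3 * n + 2 = 2 * ∑ a, d a + Fintype.card A →
      (n = Fintype.card A + 2 ∧ ∀ a, 2 ≤ d a) ∨
      ∀ a, 3 * (n - 2) + (d a + 2).choose 2 < ∑ b, (d b + 2).choose 2)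
    (F : A → MvPolynomial (Fin (n + 1)) K) (hF : ∀ a, (F a).IsHomogeneous (d a))
    (I0 : ∀ a, {I : Fin (n + 1) →₀ ℕ // I.degree = d a}) (h0 : ∀ a, (F a).coeff (I0 a).1 ≠ 0)
    (hgen : AlgebraicIndependent k
      fun p : (a : A) × {I : {I : Fin (n + 1) →₀ ℕ // I.degree = d a} // I ≠ I0 a} =>
        (F p.1).coeff p.2.1.1 / (F p.1).coeff (I0 p.1).1) (T : Finset K) :
    {p | p ∈ EPts F (IntermediateField.adjoin (algebraicClosure k K)
      (T : Set K)).toSubfield ∧ ¬ ∃ W, LineIn F W ∧ p.rep ∈ W}.Finite := by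
  classical
  rcases Nat.lt_or_ge (3 * n + 2) (2 * ∑ a, d a + Fintype.card A) with hlt | hge
  · exact (generic_intersections (by omega) hd0 (by omega) F hF I0 h0 hgen).1 T
  · have he : 3 * n + 2 = 2 * ∑ a, d a + Fintype.card A := by omega
    rcases hcr he with ⟨h1, h2⟩ | h1
    · exact (surfaces h1.symm h2 (by omega) F hF I0 h0 hgen T).subset fun p hp => hp.1
    · exact border hA hd0 he (crit_of (by omega) he h1) F hF I0 h0 hgen T

end

end Pool.Agent.KS6_26.G
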