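import Pool.Agent.KS6_26.G.GenA

/-!
There are no plane curves on generic complete intersections on the borderline.
-/

set_option autoImplicit false

open MvPolynomial
open Pool.Agent.TH145.GC (Cf finite_cf)

namespace Pool.Agent.KS6_26.G

theorem two_choose (n : ℕ) : 2 * (n + 1).choose 2 = (n + 1) * n := by
  induction n with
  | zero => rfl
  | succ n ih =>
    rw [Nat.choose_succ_succ' (n + 1) 1, Nat.choose_one_right, mul_add, ih]
    ring

theorem two_choose' (n : ℕ) : ((2 * n.choose 2 : ℕ) : ℤ) = n * (n - 1) := by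
  rcases n with _ | n
  · simp
  · rw [two_choose]
    push_cast
    ring

/-- The contribution of a degree. -/
def zz (e d : ℕ) : ℤ := if e ≤ d then ((e : ℤ) - 2) * (2 * d - e + 1) else d * (d - 1)

theorem zz_eq {e : ℕ} (d : ℕ) :
    ((2 * (d + 2).choose 2 : ℕ) : ℤ) = ((2 * (d + 2 - e).choose 2 : ℕ) : ℤ) + 2 * (2 * d + 1) +
      zz e d := by
  unfold zz
  rw [two_choose', two_choose']
  split_ifs with h
  · obtain ⟨t, rfl⟩ := Nat.exists_eq_add_of_le h
    have h1 : e + t + 2 - e = t + 2 := by omega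
    rw [h1]
    push_cast
    ring
  · have h1 : ((d + 2 - e : ℕ) : ℤ) = 0 ∨ ((d + 2 - e : ℕ) : ℤ) = 1 := by omega
    have h2 : ((d + 2 - e : ℕ) : ℤ) * (((d + 2 - e : ℕ) : ℤ) - 1) = 0 := by
      rcases h1 with h1 | h1 <;> rw [h1] <;> norm_num
    rw [h2]
    push_cast
    ring

theorem zz_nonneg {e : ℕ} (he : 2 ≤ e) (d : ℕ) : 0 ≤ zz e d := by
  unfold zz
  have he' : (2 : ℤ) ≤ e := by exact_mod_cast he
  split_ifs with h
  · have h1 : (e : ℤ) ≤ d := by exact_mod_cast h
    exact mul_nonneg (by linarith) (by linarith)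
  · rcases Nat.eq_zero_or_pos d with rfl | hd
    · norm_num
    · have h1 : (1 : ℤ) ≤ d := by exact_mod_cast hd
      exact mul_nonneg (by linarith) (by linarith)

/-- The condition on the degrees. -/
def Crit (n : ℕ) {A : Type} [Fintype A] [DecidableEq A] (dg : A → ℕ) : Prop :=
  ∀ a, 2 * dg a ≤ 6 + ∑ b ∈ Finset.univ.erase a, (dg b).choose 2 ∨
    (n = 4 ∧ ∃ b, b ≠ a ∧ dg b = 2)

/-- There are no plane curves. -/
theorem npc {Ω : Type} [Field Ω] [CharZero Ω] {n : ℕ} {A : Type} [Fintype A] [DecidableEq A]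
    {dg : A → ℕ} {F : A → MvPolynomial (Fin (n + 1)) Ω} (hF : ∀ a, (F a).IsHomogeneous (dg a))
    (hgen : GenA dg F) (hd : 3 * n + 2 = 2 * ∑ a, dg a + Fintype.card A) (hcr : Crit n dg) :
    NPC F := by
  classical
  intro l0 u0 v0 p he g hg hdvd
  have hind := hgen.rat
  have hn2 : 2 ≤ n := by
    obtain ⟨h1, h2, h3, -, -, -⟩ := id he
    have hn3 : ({l0, u0, v0} : Finset (Fin (n + 1))).card = 3 := by
      rw [Finset.card_eq_three]
      exact ⟨l0, u0, v0, h1, h2, h3, rfl⟩
    have h4 := Finset.card_le_univ ({l0, u0, v0} : Finset (Fin (n + 1)))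
    rw [hn3, Fintype.card_fin] at h4
    omega
  -- the inequality in terms of the contributions
  have key : ∀ g : MvPolynomial (Fin 2) Ω, g ≠ 0 → (∀ a, g ∣ sub p (F a)) →
      ∑ a, zz g.totalDegree (dg a) + 16 ≤
        (g.totalDegree : ℤ) * g.totalDegree + 3 * g.totalDegree := by
    intro g hg0 hdvd
    have h1 := plane_count hF he hg0 hdvd hind
    obtain ⟨e, hee⟩ : ∃ e, e = g.totalDegree := ⟨_, rfl⟩
    rw [← hee] at h1 ⊢
    have h2 : ((2 * ∑ a, (dg a + 2).choose 2 : ℕ) : ℤ) =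
        ((2 * ∑ a, (dg a + 2 - e).choose 2 : ℕ) : ℤ) +
        (4 * ((∑ a, dg a : ℕ) : ℤ) + 2 * (Fintype.card A : ℤ)) + ∑ a, zz e (dg a) := by
      rw [Finset.mul_sum, Finset.mul_sum]
      rw [Nat.cast_sum, Nat.cast_sum, Finset.sum_congr rfl fun a _ => zz_eq (e := e) (dg a),
        Finset.sum_add_distrib, Finset.sum_add_distrib]
      congr 1
      congr 1
      rw [← Finset.mul_sum, Finset.sum_add_distrib, ← Finset.mul_sum, Nat.cast_sum,
        Finset.sum_const, Finset.card_univ, nsmul_eq_mul]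
      ring
    have h3 := two_choose' (e + 2)
    push_cast at h3
    have h4 : ((2 * (∑ a, (dg a + 2).choose 2 + 1) : ℕ) : ℤ) ≤
        ((2 * (3 * (n - 2) + (e + 2).choose 2 + ∑ a, (dg a + 2 - e).choose 2) : ℕ) : ℤ) := by
      exact_mod_cast Nat.mul_le_mul_left 2 h1
    obtain ⟨m, rfl⟩ := Nat.exists_eq_add_of_le hn2
    have h6 : 2 + m - 2 = m := by omega
    rw [h6] at h4
    have h5 : (3 * (2 + (m : ℤ)) + 2) = 2 * ((∑ a, dg a : ℕ) : ℤ) + Fintype.card A := by
      exact_mod_cast hd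
    push_cast at h4 h2 h5 ⊢
    linarith
  have hzero : ∀ g : MvPolynomial (Fin 2) Ω, g.totalDegree = 2 → ¬ ∀ a, g ∣ sub p (F a) := by
    intro g hg2 hdvd
    have h1 := key g (by
      rintro rfl
      rw [totalDegree_zero] at hg2
      exact absurd hg2 (by norm_num)) hdvd
    rw [hg2] at h1
    have h2 : 0 ≤ ∑ a, zz 2 (dg a) := Finset.sum_nonneg fun a _ => zz_nonneg le_rfl _
    push_cast at h1
    linarith
  by_cases h0 : ∀ a, sub p (F a) = 0
  · refine hzero (X 0 ^ 2) (totalDegree_X_pow _ _) fun a => ?_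
    rw [h0 a]
    exact dvd_zero _
  push Not at h0
  obtain ⟨a0, ha0⟩ := h0
  have hg0 : g ≠ 0 := by
    rintro rfl
    rw [totalDegree_zero] at hg
    exact absurd hg (by norm_num)
  have hdeg : ∀ a, sub p (F a) ≠ 0 → g.totalDegree ≤ dg a := by
    intro a ha
    obtain ⟨q, hq⟩ := hdvd a
    have h1 := totalDegree_sub_le p (hF a)
    rw [hq] at ha h1
    rw [totalDegree_mul_of_isDomain hg0 (right_ne_zero_of_mul ha)] at h1
    omega
  have hd0 := hdeg a0 ha0
  by_cases hg2 : g.totalDegree = 2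
  · exact hzero g hg2 hdvd
  have hg3 : 3 ≤ g.totalDegree := by omega
  have h1 := key g hg0 hdvd
  rcases hcr a0 with hc | ⟨hn4, b, hb, hb2⟩
  · obtain ⟨e, hee⟩ : ∃ e, e = g.totalDegree := ⟨_, rfl⟩
    rw [← hee] at h1 hd0 hg3
    rw [← Finset.add_sum_erase _ _ (Finset.mem_univ a0)] at h1
    obtain ⟨t, ht⟩ := Nat.exists_eq_add_of_le hd0
    have hz0 : zz e (dg a0) = ((e : ℤ) - 2) * (e + 1 + 2 * t) := by
      unfold zz
      rw [if_pos hd0, ht]
      push_cast
      ring
    have he3 : (3 : ℤ) ≤ e := by exact_mod_cast hg3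
    have ht0 : (0 : ℤ) ≤ t := by positivity
    rw [hz0] at h1
    by_cases hb : ∃ b, b ≠ a0 ∧ e ≤ dg b
    · obtain ⟨b, hb, hbe⟩ := hb
      have h2 : zz e (dg b) ≤ ∑ a ∈ Finset.univ.erase a0, zz e (dg a) :=
        Finset.single_le_sum (f := fun a => zz e (dg a)) (fun a _ => zz_nonneg (by omega) _)
          (Finset.mem_erase.2 ⟨hb, Finset.mem_univ b⟩)
      have h3 : ((e : ℤ) - 2) * (e + 1) ≤ zz e (dg b) := by
        unfold zz
        rw [if_pos hbe]
        have h4 : (e : ℤ) ≤ dg b := by exact_mod_cast hbe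
        exact mul_le_mul_of_nonneg_left (by linarith) (by linarith)
      nlinarith
    · push Not at hb
      have h2 : ∑ a ∈ Finset.univ.erase a0, zz e (dg a) =
          ((2 * ∑ a ∈ Finset.univ.erase a0, (dg a).choose 2 : ℕ) : ℤ) := by
        rw [Finset.mul_sum, Nat.cast_sum]
        refine Finset.sum_congr rfl fun a ha => ?_
        have h3 := hb a (Finset.mem_erase.1 ha).1
        unfold zz
        rw [if_neg (by omega), two_choose']
      have h3 : ((2 * (2 * dg a0) : ℕ) : ℤ) ≤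
          ((2 * (6 + ∑ b ∈ Finset.univ.erase a0, (dg b).choose 2) : ℕ) : ℤ) := by
        exact_mod_cast Nat.mul_le_mul_left 2 hc
      rw [h2] at h1
      rw [ht] at h3
      push_cast at h1 h3
      nlinarith
  · have hb0 : sub p (F b) = 0 := by
      by_contra h2
      have h3 := hdeg b h2
      omega
    refine no_plane hb2 (by omega) (hF b) ?_ he hb0
    exact hind.comp (fun I : {I : Fin (n + 1) →₀ ℕ // I.degree = dg b} => (⟨b, I⟩ : Cf n dg))
      (fun I J h => by
        have h2 := (Sigma.mk.inj_iff.1 h).2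
        exact eq_of_heq h2)

end Pool.Agent.KS6_26.G
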