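import Pool.Graph.R_seed8.Y741.Global
import Pool.Graph.R_seed8.Y741.KComb

/-!
Determinants of the rows given by the equations, the point and pairs, with an index of reference for
each pair.
-/

set_option autoImplicit false

open MvPolynomial FF Pool.Agent.W603.LV Pool.Agent.W603.PV Pool.Agent.TH145.GH
open Pool.Agent.Y735 (lf pm tm pl lf_single lf_pm lf_tm eval_lf eval_pm tm_smul sum_tm sum_pm vol
  vol_apply alt_tri alt_pair lf_hom po exists_scaled' ge_lf ge_coeff_mul ge_X ge_vol fht sum_two)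
open Pool.Agent.Y741

namespace Pool.Agent.KS6_26.G

section alt

variable {k K J ι : Type*} [Field k] [Field K] [Algebra k K] [DecidableEq ι]

/-- The order of the value of an alternating map at rows that come in pairs. -/
theorem ge_pairs2 (P : Place k K) {N : ℤ} (Pr : (J → K) → Prop) (f : (J → K) [⋀^ι]→ₗ[K] K)
    (hf : ∀ R : ι → J → K, (∀ k, Pr (R k)) → Ge P N (f R)) {B : Type*} [DecidableEq B]
    (α β : B → ι) (hα : Function.Injective α) (hβ : Function.Injective β)
    (hαβ : ∀ b b', α b ≠ β b') (x0 x1 x2 : B → K) {m : ℤ} (hm0 : ∀ b, Ge P m (x0 b))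
    (hm1 : ∀ b, Ge P m (x1 b)) (hm2 : ∀ b, Ge P m (x2 b)) (e1 e2 e3 : B → J → K)
    (he1 : ∀ b, Pr (e1 b)) (he2 : ∀ b, Pr (e2 b)) (he3 : ∀ b, Pr (e3 b))
    (t : Finset B) : ∀ R : ι → J → K,
      (∀ b ∈ t, R (α b) = x0 b • e2 b - x1 b • e1 b ∧ R (β b) = x0 b • e3 b - x2 b • e1 b) →
      (∀ k, (∀ b ∈ t, k ≠ α b ∧ k ≠ β b) → Pr (R k)) →
      Ge P (∑ b ∈ t, (P.ord (x0 b) + m) + N) (f R) := by
  classical
  induction t using Finset.induction_on with
  | empty =>
    intro R _ h2
    rw [Finset.sum_empty, zero_add]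
    exact hf R fun k => h2 k (by simp)
  | insert b t hb ih =>
    intro R h1 h2
    obtain ⟨hRα, hRβ⟩ := h1 b (Finset.mem_insert_self _ _)
    have hR : R = Function.update (Function.update R (α b) (x0 b • e2 b - x1 b • e1 b)) (β b)
        (x0 b • e3 b - x2 b • e1 b) := by
      rw [← hRα, ← hRβ, Function.update_eq_self, Function.update_eq_self]
    have key : ∀ v w : J → K, Pr v → Pr w →
        Ge P (∑ b ∈ t, (P.ord (x0 b) + m) + N)
          (f (Function.update (Function.update R (α b) v) (β b) w)) := by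
      intro v w hv hw
      refine ih _ ?_ ?_
      · intro b' hb'
        have hne : b' ≠ b := fun h => hb (h ▸ hb')
        rw [Function.update_of_ne (hαβ b' b), Function.update_of_ne (fun h => hne (hα h)),
          Function.update_of_ne (fun h => hne (hβ h)), Function.update_of_ne (hαβ b b').symm]
        exact h1 b' (Finset.mem_insert_of_mem hb')
      · intro k hk
        by_cases hkβ : k = β b
        · rw [hkβ, Function.update_self]; exact hw
        rw [Function.update_of_ne hkβ]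
        by_cases hkα : k = α b
        · rw [hkα, Function.update_self]; exact hv
        rw [Function.update_of_ne hkα]
        refine h2 k (fun b' hb' => ?_)
        rcases Finset.mem_insert.1 hb' with rfl | hb'
        · exact ⟨hkα, hkβ⟩
        · exact hk b' hb'
    rw [hR, alt_pair f R (hαβ b b)]
    have h3 : Ge P (P.ord (x0 b)) (x0 b) := Or.inr le_rfl
    have h4 := h3.mul ((((hm0 b).mul (key _ _ (he2 b) (he3 b))).sub
      ((hm1 b).mul (key _ _ (he1 b) (he3 b)))).add ((hm2 b).mul (key _ _ (he1 b) (he2 b))))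
    refine h4.mono ?_
    rw [Finset.sum_insert hb]
    linarith

end alt

variable {k K : Type} [Field k] [Field K] [Algebra k K] {n : ℕ} {A B : Type}

/-- The indices of the rows: the equations, the point, and the pairs. -/
abbrev RI (A B : Type) := A ⊕ Option (B ⊕ B)

variable [DecidableEq A] [Fintype A]

/-- The rows. -/
noncomputable def prow (dg : A → ℕ) (D : A → (Fin (n + 1) →₀ ℕ) → Derivation ℤ K K)
    (x : Fin (n + 1) → K) (i0 : Fin (n + 1)) (Q : B → Fam K n A) (β u v : B → Fin (n + 1)) :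
    RI A B → Fin (n + 1) → K
  | Sum.inl c => vA D x (Pi.single c (X i0 ^ dg c))
  | Sum.inr none => x
  | Sum.inr (some (Sum.inl b)) => vq D x (Q b) (pm x (β b) (u b))
  | Sum.inr (some (Sum.inr b)) => vq D x (Q b) (pm x (β b) (v b))

/-- The rows at a place. -/
noncomputable def plrow (dg : A → ℕ) (D : A → (Fin (n + 1) →₀ ℕ) → Derivation ℤ K K)
    (x x' : Fin (n + 1) → K) (i1 : Fin (n + 1)) (Q : B → Fam K n A) (β u v : B → Fin (n + 1)) :
    RI A B → Fin (n + 1) → K
  | Sum.inl c => vA D x' (Pi.single c (X i1 ^ dg c))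
  | Sum.inr none => x'
  | Sum.inr (some (Sum.inl b)) => x (β b) • vq D x' (Q b) (pm x' i1 (u b))
      - x (u b) • vq D x' (Q b) (pm x' i1 (β b))
  | Sum.inr (some (Sum.inr b)) => x (β b) • vq D x' (Q b) (pm x' i1 (v b))
      - x (v b) • vq D x' (Q b) (pm x' i1 (β b))

/-- The factors. -/
def pfac (dg : A → ℕ) (x0 lam : K) : RI A B → K
  | Sum.inl c => (x0 / lam) ^ dg c * lam
  | Sum.inr none => lam
  | Sum.inr (some _) => lam

/-- The order of the rows. -/
def prk : RI A B → ℕ
  | Sum.inl _ => 2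
  | Sum.inr none => 0
  | Sum.inr (some _) => 1

/-- Replacement of the rows by the rows at the place. -/
theorem prow_repl [Fintype B]
    {F : Fam K n A} {dg : A → ℕ} {D : A → (Fin (n + 1) →₀ ℕ) → Derivation ℤ K K}
    (hF : ∀ a, (F a).IsHomogeneous (dg a)) (hD : TH145.GC.Dual F dg D)
    {x : Fin (n + 1) → K} (hxC : ∀ a, eval x (F a) = 0) {i0 : Fin (n + 1)}
    (Q : B → Fam K n A) (β u v : B → Fin (n + 1))
    (hTC : TC F Finset.univ x ≤
      Submodule.span K (prow dg D x i0 Q β u v '' {l | prk l < 2}))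
    {x' : Fin (n + 1) → K} {lam : K} (hlam : lam ≠ 0) (hx : x = lam • x')
    {i1 : Fin (n + 1)} (hi1 : x' i1 = 1)
    (f : (Fin (n + 1) → K) [⋀^RI A B]→ₗ[K] K) :
    f (prow dg D x i0 Q β u v) = (∏ k : RI A B, pfac dg (x i0) lam k) *
      f (plrow dg D x x' i1 Q β u v) := by
  classical
  obtain ⟨R, hR⟩ : ∃ R, R = prow dg D x i0 Q β u v := ⟨_, rfl⟩
  rw [← hR] at hTC ⊢
  have hxR : R (Sum.inr none) = x := by rw [hR]; rfl
  have hx1 : x' ∈ Submodule.span K (R '' {l | prk l < 1}) := by
    have h1 : x' = lam⁻¹ • R (Sum.inr none) := by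
      rw [hxR, hx, smul_smul, inv_mul_cancel₀ hlam, one_smul]
    rw [h1]
    exact Submodule.smul_mem _ _ (Submodule.subset_span ⟨Sum.inr none, by simp [prk], rfl⟩)
  have hx2 : x' ∈ Submodule.span K (R '' {l | prk l < 2}) := by
    refine Submodule.span_mono ?_ hx1
    exact Set.image_mono fun l (hl : prk l < 1) => (lt_of_lt_of_le hl (by norm_num) : prk l < 2)
  have hv : ∀ Q m, vq D x Q m - lam • vq D x' Q m = DA D (ql Q m) lam • x' := by
    intro Q m
    rw [hx, vq_scale, add_sub_cancel_left]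
  refine alt_tri f R _ _ prk fun k => ?_
  rcases k with c | _ | (b | b)
  · -- the equations
    change R (Sum.inl c) - ((x i0 / lam) ^ dg c * lam) •
      vA D x' (Pi.single c (X i1 ^ dg c)) ∈ Submodule.span K (R '' {l | prk l < 2})
    have hxi : x i1 = lam := by
      rw [hx, Pi.smul_apply, hi1, smul_eq_mul, mul_one]
    obtain ⟨G, hG⟩ : ∃ G : Fam K n A, G = (Pi.single c (X i0 ^ dg c) : Fam K n A) -
        (x i0 / lam) ^ dg c • (Pi.single c (X i1 ^ dg c) : Fam K n A) := ⟨_, rfl⟩
    have hXh : ∀ i : Fin (n + 1), ∀ a, ((Pi.single c (X i ^ dg c) : Fam K n A) a).IsHomogeneous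
        (dg a) := fun i a => single_hom (isHomogeneous_X_pow i (dg c)) a
    have hGT : vA D x G ∈ TC F Finset.univ x := by
      refine vA_mem_TC hF hD (fun c _ => hxC c) (fun a => ?_) fun b _ => ?_
      · rw [hG, Pi.sub_apply, Pi.smul_apply]
        refine (hXh i0 a).sub ?_
        rw [smul_eq_C_mul]
        have := (isHomogeneous_C (Fin (n + 1)) ((x i0 / lam) ^ dg c)).mul (hXh i1 a)
        rwa [zero_add] at this
      · rw [hG, Pi.sub_apply, Pi.smul_apply, map_sub, smul_eval]
        by_cases hb : b = c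
        · subst hb
          rw [Pi.single_eq_same, Pi.single_eq_same, map_pow, map_pow, eval_X, eval_X, hxi,
            div_pow, div_mul_cancel₀ _ (pow_ne_zero _ hlam), sub_self]
        · rw [Pi.single_eq_of_ne hb, Pi.single_eq_of_ne hb, map_zero, mul_zero, sub_self]
    have h1 : R (Sum.inl c) - ((x i0 / lam) ^ dg c * lam) •
        vA D x' (Pi.single c (X i1 ^ dg c)) = vA D x G +
          ((x i0 / lam) ^ dg c * DA D (Pi.single c (X i1 ^ dg c)) lam) • x' := by
      have h2 : R (Sum.inl c) = vA D x (Pi.single c (X i0 ^ dg c)) := by rw [hR]; rfl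
      have h3 : vA D x (Pi.single c (X i1 ^ dg c)) =
          lam • vA D x' (Pi.single c (X i1 ^ dg c)) +
            DA D (Pi.single c (X i1 ^ dg c)) lam • x' := by
        conv_lhs => rw [hx]
        exact vA_scale D x' lam _
      rw [h2, hG, map_sub, map_smul, h3, smul_add, smul_smul, smul_smul]
      abel
    rw [h1]
    exact add_mem (hTC hGT) (Submodule.smul_mem _ _ hx2)
  · change R (Sum.inr none) - lam • x' ∈ _
    rw [hxR, ← hx, sub_self]
    exact zero_mem _
  · change R (Sum.inr (some (Sum.inl b))) -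
      lam • (x (β b) • vq D x' (Q b) (pm x' i1 (u b)) -
        x (u b) • vq D x' (Q b) (pm x' i1 (β b))) ∈ _
    have h1 : R (Sum.inr (some (Sum.inl b))) = vq D x (Q b) (pm x (β b) (u b)) := by
      rw [hR]; rfl
    rw [h1, ← map_smul (vq D x' (Q b)), ← map_smul (vq D x' (Q b)),
      ← map_sub (vq D x' (Q b)), ← pm_scaled hx hi1, hv]
    exact Submodule.smul_mem _ _ hx1
  · change R (Sum.inr (some (Sum.inr b))) -
      lam • (x (β b) • vq D x' (Q b) (pm x' i1 (v b)) -
        x (v b) • vq D x' (Q b) (pm x' i1 (β b))) ∈ _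
    have h1 : R (Sum.inr (some (Sum.inr b))) = vq D x (Q b) (pm x (β b) (v b)) := by
      rw [hR]; rfl
    rw [h1, ← map_smul (vq D x' (Q b)), ← map_smul (vq D x' (Q b)),
      ← map_sub (vq D x' (Q b)), ← pm_scaled hx hi1, hv]
    exact Submodule.smul_mem _ _ hx1

theorem ord_pfac [Fintype B] (P : Place k K) (dg : A → ℕ)
    {x0 lam : K} (hx0 : x0 ≠ 0) (hlam : lam ≠ 0) :
    (∏ k : RI A B, pfac dg x0 lam k) ≠ 0 ∧
      P.ord (∏ k : RI A B, pfac dg x0 lam k) =
        ((∑ a, dg a : ℕ) : ℤ) * (P.ord x0 - P.ord lam) +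
        ((Fintype.card A + 1 + 2 * Fintype.card B : ℕ) : ℤ) * P.ord lam := by
  classical
  have h1 : (∏ k : RI A B, pfac dg x0 lam k) =
      ((x0 / lam) ^ (∑ a, dg a) * lam ^ Fintype.card A) * (lam *
      (lam ^ Fintype.card B * lam ^ Fintype.card B)) := by
    rw [Fintype.prod_sum_type, Fintype.prod_option, Fintype.prod_sum_type]
    simp only [pfac, Finset.prod_const, Finset.card_univ]
    congr 1
    rw [Finset.prod_mul_distrib, Finset.prod_const, Finset.card_univ, Finset.prod_pow_eq_pow_sum]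
  have hr := pow_ne_zero (∑ a, dg a) (div_ne_zero hx0 hlam)
  have hc := pow_ne_zero (Fintype.card A) hlam
  have hb := pow_ne_zero (Fintype.card B) hlam
  have h2 := mul_ne_zero hlam (mul_ne_zero hb hb)
  refine ⟨?_, ?_⟩
  · rw [h1]
    exact mul_ne_zero (mul_ne_zero hr hc) h2
  · rw [h1, P.ord_mul (mul_ne_zero hr hc) h2, P.ord_mul hr hc,
      P.ord_mul hlam (mul_ne_zero hb hb), P.ord_mul hb hb,
      P.ord_pow, P.ord_pow, P.ord_pow, P.ord_div hx0 hlam]
    push_cast
    ring

/-- The tangent rows span the tangent space when the determinant does not vanish. -/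
theorem TC_le_prow [Fintype B]
    {F : Fam K n A} {dg : A → ℕ} {D : A → (Fin (n + 1) →₀ ℕ) → Derivation ℤ K K}
    (hpos : ∀ a, 0 < dg a) (hF : ∀ a, (F a).IsHomogeneous (dg a)) (hD : TH145.GC.Dual F dg D)
    {x : Fin (n + 1) → K} (hx0 : x ≠ 0) (hxC : ∀ a, eval x (F a) = 0) {i0 : Fin (n + 1)}
    (Q : B → Fam K n A) (hQ : ∀ b a, (Q b a).IsHomogeneous (dg a - 1)) (β u v : B → Fin (n + 1))
    (hcard : Fintype.card A + 1 + 2 * Fintype.card B = n + 1)
    (E : RI A B ≃ Fin (n + 1)) (hdet : vol E (prow dg D x i0 Q β u v) ≠ 0) :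
    TC F Finset.univ x ≤ Submodule.span K (prow dg D x i0 Q β u v '' {l | prk l < 2}) := by
  classical
  have hxC' : ∀ c ∈ (Finset.univ : Finset A), eval x (F c) = 0 := fun c _ => hxC c
  have hind : LinearIndependent K (prow dg D x i0 Q β u v) := by
    rw [vol_apply] at hdet
    have h4 := Matrix.linearIndependent_rows_iff_isUnit
      (A := Matrix.of fun i => prow dg D x i0 Q β u v (E.symm i))
    rw [Matrix.isUnit_iff_isUnit_det, isUnit_iff_ne_zero] at h4
    exact (linearIndependent_equiv E.symm).1 (h4.2 hdet)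
  have hind1 : LinearIndependent K (fun j : Option (B ⊕ B) =>
      prow dg D x i0 Q β u v (Sum.inr j)) := hind.comp _ Sum.inr_injective
  have hdim := TC_finrank hF hD hxC' hx0
  rw [Finset.card_univ] at hdim
  have hle : Submodule.span K (Set.range (fun j : Option (B ⊕ B) =>
      prow dg D x i0 Q β u v (Sum.inr j))) ≤ TC F Finset.univ x := by
    rw [Submodule.span_le]
    rintro _ ⟨j, rfl⟩
    rcases j with _ | (b | b)
    · exact x_mem_TC hF hxC'
    · exact vq_mem_TC hpos hF hD hxC' (hQ b) (by rw [← eval_lf]; exact eval_pm x _ _)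
    · exact vq_mem_TC hpos hF hD hxC' (hQ b) (by rw [← eval_lf]; exact eval_pm x _ _)
  have h5 := finrank_span_eq_card hind1
  have h6 : Fintype.card (Option (B ⊕ B)) = 1 + 2 * Fintype.card B := by
    rw [Fintype.card_option, Fintype.card_sum]
    omega
  have h7 := Submodule.eq_of_le_of_finrank_eq hle (by rw [h5, h6]; omega)
  rw [← h7]
  refine Submodule.span_mono ?_
  rintro _ ⟨j, rfl⟩
  refine ⟨Sum.inr j, ?_, rfl⟩
  rcases j with _ | j
  · simp [prk]
  · simp [prk]

/-- The local inequality. -/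
theorem plocal [Fintype B] {F : Fam K n A} {dg : A → ℕ}
    {D : A → (Fin (n + 1) →₀ ℕ) → Derivation ℤ K K} {e g : Place k K → ℤ}
    (hdat : DataL k F dg D e g) {x : Fin (n + 1) → K} (hxC : ∀ a, eval x (F a) = 0)
    {i0 : Fin (n + 1)} (hi0 : x i0 = 1) (Q : B → Fam K n A)
    (hQ : ∀ b a, (Q b a).IsHomogeneous (dg a - 1)) (P : Place k K)
    (hcQ : ∀ b a w, Ge P 0 ((Q b a).coeff w)) (β u v : B → Fin (n + 1))
    (hβ : ∀ b, x (β b) ≠ 0)
    (hcard : Fintype.card A + 1 + 2 * Fintype.card B = n + 1)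
    (hsum : ∑ a, dg a = n + 1 + Fintype.card B) (E : RI A B ≃ Fin (n + 1)) :
    Ge P (-((n + 1) * (e P + g P))) (vol E (prow dg D x i0 Q β u v) / ∏ b, x (β b)) := by
  classical
  by_cases hdet : vol E (prow dg D x i0 Q β u v) = 0
  · rw [hdet, zero_div]; exact Ge.zero
  have hx0 : x ≠ 0 := by
    rintro rfl
    exact zero_ne_one hi0
  have hTC := TC_le_prow hdat.pos hdat.hom hdat.dual hx0 hxC Q hQ β u v hcard E hdet
  obtain ⟨lam, x', hlam, hlamP, hxx, hx', i1, hi1⟩ := exists_scaled P hx0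
  have h1 := prow_repl hdat.hom hdat.dual hxC Q β u v hTC hlam hxx hi1 (vol E)
  obtain ⟨hf0, hford⟩ := ord_pfac (B := B) P dg (x0 := x i0) (lam := lam)
    (by rw [hi0]; exact one_ne_zero) hlam
  have hm : ∀ j, Ge P (P.ord lam) (x j) := by
    intro j
    rw [hlamP]
    exact ge_pord P x j
  have hpm1 : ∀ j, (∀ l, Ge P 0 (pm x' i1 j l)) ∧ ∑ l, pm x' i1 j l * x' l = 0 := by
    intro j
    refine ⟨fun l => ?_, by rw [← eval_lf]; exact eval_pm x' i1 j⟩
    unfold pm
    refine Ge.sub ?_ ?_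
    · split_ifs
      · exact hx' _
      · exact Ge.zero
    · split_ifs
      · exact hx' _
      · exact Ge.zero
  have hlog : ∀ b ∈ (∅ : Finset A), ∀ a, ∀ I : Fin (n + 1) →₀ ℕ, I.degree = dg a →
      Ge P (P.ord (eval x' (F b)) - e P) (D a I (eval x' (F b))) :=
    fun b hb => absurd hb (Finset.notMem_empty b)
  have h3 : Ge P (∑ b : B, (P.ord (x (β b)) + P.ord lam) + -((n + 1) * (e P + g P)))
      (vol E (plrow dg D x x' i1 Q β u v)) := by
    refine ge_pairs2 P (RowOK P F x' (e P + g P) ∅) (vol E)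
      (fun R hR => by
        have h4 := hdat.ge_vol P hx' hi1 hlog (fun b hb => absurd hb (Finset.notMem_empty b)) E R hR
        rw [Finset.sum_empty, zero_sub] at h4
        exact h4)
      (fun b : B => Sum.inr (some (Sum.inl b))) (fun b : B => Sum.inr (some (Sum.inr b)))
      (fun a b hab => by simpa using hab) (fun a b hab => by simpa using hab)
      (fun a b hab => by simp at hab)
      (fun b => x (β b)) (fun b => x (u b)) (fun b => x (v b)) (fun b => hm _)
      (fun b => hm _) (fun b => hm _) (fun b => vq D x' (Q b) (pm x' i1 (β b)))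
      (fun b => vq D x' (Q b) (pm x' i1 (u b)))
      (fun b => vq D x' (Q b) (pm x' i1 (v b)))
      (fun b => hdat.ok_vq P hx' hlog (hQ b) (hcQ b) (hpm1 _).1 (hpm1 _).2)
      (fun b => hdat.ok_vq P hx' hlog (hQ b) (hcQ b) (hpm1 _).1 (hpm1 _).2)
      (fun b => hdat.ok_vq P hx' hlog (hQ b) (hcQ b) (hpm1 _).1 (hpm1 _).2)
      Finset.univ _ (fun b _ => ⟨rfl, rfl⟩) ?_
    intro κ hκ
    rcases κ with c | _ | (b | b)
    · refine hdat.ok_vA P hx' hlog (fun a => single_hom (isHomogeneous_X_pow i1 (dg c)) a)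
        (fun a u => ge_single P i1 c a u) fun b hb => absurd hb (Finset.notMem_empty b)
    · exact hdat.ok_x P hx'
    · exact absurd rfl (hκ b (Finset.mem_univ b)).1
    · exact absurd rfl (hκ b (Finset.mem_univ b)).2
  have hm0 : vol E (plrow dg D x x' i1 Q β u v) ≠ 0 := by
    intro h0
    rw [h0, mul_zero] at h1
    exact hdet h1
  have hB0 : (∏ b, x (β b)) ≠ 0 := Finset.prod_ne_zero_iff.2 fun b _ => hβ b
  right
  rw [P.ord_div hdet hB0, h1, P.ord_mul hf0 hm0, hford, hi0]
  have h5 := h3.resolve_left hm0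
  have h6 : P.ord (∏ b, x (β b)) = ∑ b, P.ord (x (β b)) :=
    TH145.GC.ord_prod P Finset.univ _ (fun b _ => hβ b)
  rw [Finset.sum_add_distrib, Finset.sum_const, Finset.card_univ, nsmul_eq_mul] at h5
  have h7 : P.ord (1 : K) = 0 := P.ord_one
  rw [h6, h7, hsum, hcard]
  push_cast
  linarith

end Pool.Agent.KS6_26.G
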