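import Pool.Agent.KS6_26.G.Comb
import Pool.Agent.KS6_26.G.Num
import Pool.Graph.R_seed8.TH145.MG.Unb
import Pool.Graph.R_seed8.Y741.Seq

/-!
Points of unbounded height in the ultrapower.
-/

set_option autoImplicit false

open MvPolynomial FF Pool.Agent.W603.LV Pool.Agent.W603.PV Pool.Agent.W602.RG Pool.Agent.TH145.GH
  Pool.Agent.TH145.MF Pool.Agent.Y741
open Pool.Agent.TH145.GC (Cf finite_cf)
open Pool.Agent.Y735 (pl)

namespace Pool.Agent.KS6_26.G

/-- A finite valued sequence is constant on a large set. -/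
theorem ev_const {ι : Type} [Finite ι] (u : ℕ → ι) :
    ∃ a, ∀ᶠ m in (Filter.hyperfilter ℕ : Filter ℕ), u m = a := by
  by_contra hcon
  push Not at hcon
  obtain ⟨m, hm⟩ := (Filter.eventually_all.2 hcon).exists
  exact hm (u m) rfl

/-- The limits of the points on planes of bounded height have bounded height. -/
theorem ultraE {κ L K : Type} [Field κ] [Field L] [Field K] [Algebra κ L] [Algebra L K]
    [IsAlgClosed K] [CharZero κ] [IsFF κ L] [IsAlgClosed κ] {n : ℕ} {A : Type} [Fintype A]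
    [DecidableEq A] {dg : A → ℕ} {F : A → MvPolynomial (Fin (n + 1)) L}
    (hF : ∀ a, (F a).IsHomogeneous (dg a)) (hgen : GenA dg F)
    (hd : 3 * n + 2 = 2 * ∑ a, dg a + Fintype.card A) (hcr : Crit n dg) {l0 : Fin (n + 1)} {H : ℤ}
    (x : ℕ → Fin (n + 1) → L) (hxF : ∀ m a, eval (x m) (F a) = 0)
    (hP : ∀ m, Pln κ H l0 (x m))
    (hX : ∀ m, ¬ Exc 1 (fun a => map (algebraMap L K) (F a)) Finset.univ
      (fun j => algebraMap L K (x m j))) (l : Fin (n + 1)) :
    Om.mk (fun m => x m l) ∈ EE κ L := by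
  classical
  have hczL : CharZero L := charZero_of_injective_algebraMap (algebraMap κ L).injective
  have hczK : CharZero K := charZero_of_injective_algebraMap (algebraMap L K).injective
  have hczOm : CharZero (Om K) :=
    charZero_of_injective_algebraMap (algebraMap K (Om K)).injective
  have hinfK : Infinite K := IsAlgClosed.instInfinite
  have hacOm : IsAlgClosed (Om K) := Pool.Agent.W917.RG.GAC.main K
  choose u0 v0 p he hxp hht using hP
  obtain ⟨u1, hu⟩ := ev_const u0
  obtain ⟨v1, hv⟩ := ev_const v0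
  -- the limits
  obtain ⟨P, hPP⟩ : ∃ P : Fin 3 → Fin (n + 1) → Om L, ∀ s i, P s i = Om.mk fun m => p m s i :=
    ⟨_, fun _ _ => rfl⟩
  obtain ⟨z, hz⟩ : ∃ z : Fin (n + 1) → Om L, ∀ i, z i = Om.mk fun m => x m i := ⟨_, fun _ => rfl⟩
  have hPmem : ∀ s i, P s i ∈ EE κ L := by
    intro s i
    rw [hPP]
    exact Pool.Agent.TH145.MG.mem_of_bdd (B := H) (Filter.Eventually.of_forall fun m => hht m s i)
  have hzP : ∀ i, z i = P 0 i + z u1 * P 1 i + z v1 * P 2 i := by
    intro i
    rw [hz, hz, hz, hPP, hPP, hPP, Om.mk_mul, Om.mk_mul, Om.mk_add, Om.mk_add, Om.mk_eq]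
    filter_upwards [hu, hv] with m h1 h2
    rw [← h1, ← h2]
    exact hxp m i
  have hech : Ech l0 u1 v1 P := by
    obtain ⟨m, ⟨h1, h2⟩, -⟩ := ((hu.and hv).and
      (Filter.Eventually.of_forall fun _ => trivial)).exists
    have h3 := he m
    rw [h1, h2] at h3
    have h0' : ∀ (s : Fin 3) (i : Fin (n + 1)), (∀ᶠ m in (Filter.hyperfilter ℕ : Filter ℕ),
        p m s i = 0) → P s i = 0 := by
      intro s i h
      rw [hPP]
      exact Om.mk_eq.2 h
    have h1' : ∀ (s : Fin 3) (i : Fin (n + 1)), (∀ᶠ m in (Filter.hyperfilter ℕ : Filter ℕ),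
        p m s i = 1) → P s i = 1 := by
      intro s i h
      rw [hPP]
      exact Om.mk_eq.2 h
    have hev : ∀ᶠ m in (Filter.hyperfilter ℕ : Filter ℕ), Ech l0 u1 v1 (p m) := by
      filter_upwards [hu, hv] with m h1 h2
      have h3 := he m
      rwa [h1, h2] at h3
    exact ⟨h3.1, h3.2.1, h3.2.2.1,
      ⟨h1' _ _ (hev.mono fun m h => h.2.2.2.1.1), h0' _ _ (hev.mono fun m h => h.2.2.2.1.2.1),
        h0' _ _ (hev.mono fun m h => h.2.2.2.1.2.2)⟩,
      ⟨h0' _ _ (hev.mono fun m h => h.2.2.2.2.1.1), h1' _ _ (hev.mono fun m h => h.2.2.2.2.1.2.1),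
        h0' _ _ (hev.mono fun m h => h.2.2.2.2.1.2.2)⟩,
      ⟨h0' _ _ (hev.mono fun m h => h.2.2.2.2.2.1), h0' _ _ (hev.mono fun m h => h.2.2.2.2.2.2.1),
        h1' _ _ (hev.mono fun m h => h.2.2.2.2.2.2.2)⟩⟩
  -- the fields
  obtain ⟨ι, hι⟩ : ∃ ι : Om L →+* Om K, ι = mapOm L K := ⟨_, rfl⟩
  let alg1 : Algebra (Om L) (Om K) := ι.toAlgebra
  have hac : IsAlgClosed (algebraicClosure (EE κ L) (Om K)) :=
    (algebraicClosure.isAlgClosure (EE κ L) (Om K)).isAlgClosed
  have hcz1 : CharZero (algebraicClosure (EE κ L) (Om K)) := by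
    constructor
    intro a b hab
    have h1 := congrArg (fun z : algebraicClosure (EE κ L) (Om K) => (z : Om K)) hab
    simpa using h1
  have hmem : ∀ z ∈ EE κ L, ι z ∈ algebraicClosure (EE κ L) (Om K) := by
    intro z hz
    rw [mem_algebraicClosure_iff]
    have h1 : ι z = algebraMap (EE κ L) (Om K) ⟨z, hz⟩ := rfl
    rw [h1]
    exact isAlgebraic_algebraMap _
  have hmem' : ∀ z, ι z ∈ algebraicClosure (EE κ L) (Om K) → z ∈ EE κ L := by
    intro z hz
    rw [mem_algebraicClosure_iff] at hz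
    exact Pool.Agent.TH145.MG.mem_of_isAlgebraic
      ((isAlgebraic_algebraMap_iff (algebraMap (Om L) (Om K)).injective).1 hz)
  let φ : L →+* algebraicClosure (EE κ L) (Om K) :=
    { toFun := fun a => ⟨ι (cst L a), hmem _ (cst_mem κ L a)⟩
      map_one' := Subtype.ext (by
        change ι (cst L 1) = 1
        rw [map_one, map_one])
      map_mul' := fun a b => Subtype.ext (by
        change ι (cst L (a * b)) = ι (cst L a) * ι (cst L b)
        rw [map_mul, map_mul])
      map_zero' := Subtype.ext (by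
        change ι (cst L 0) = 0
        rw [map_zero, map_zero])
      map_add' := fun a b => Subtype.ext (by
        change ι (cst L (a + b)) = ι (cst L a) + ι (cst L b)
        rw [map_add, map_add]) }
  have hcomp : (algebraMap (algebraicClosure (EE κ L) (Om K)) (Om K)).comp φ = ι.comp (cst L) :=
    RingHom.ext fun _ => rfl
  obtain ⟨pN, hpN⟩ : ∃ pN : Fin 3 → Fin (n + 1) → algebraicClosure (EE κ L) (Om K),
      ∀ s i, pN s i = ⟨ι (P s i), hmem _ (hPmem s i)⟩ := ⟨_, fun _ _ => rfl⟩
  have hechN : Ech l0 u1 v1 pN := by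
    obtain ⟨h1, h2, h3, ⟨e1, e2, e3⟩, ⟨e4, e5, e6⟩, ⟨e7, e8, e9⟩⟩ := hech
    have h0' : ∀ s i, P s i = 0 → pN s i = 0 := by
      intro s i h
      rw [hpN]
      apply Subtype.ext
      change ι (P s i) = 0
      rw [h, map_zero]
    have h1' : ∀ s i, P s i = 1 → pN s i = 1 := by
      intro s i h
      rw [hpN]
      apply Subtype.ext
      change ι (P s i) = 1
      rw [h, map_one]
    exact ⟨h1, h2, h3, ⟨h1' _ _ e1, h0' _ _ e2, h0' _ _ e3⟩, ⟨h0' _ _ e4, h1' _ _ e5, h0' _ _ e6⟩,
      ⟨h0' _ _ e7, h0' _ _ e8, h1' _ _ e9⟩⟩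
  have hnpc := npc (fun a => (hF a).map φ) (hgen.map φ) hd hcr
  have hevz : ∀ a, eval z (map (cst L) (F a)) = 0 := by
    intro a
    have h1 : z = fun l => Om.mk fun m => x m l := funext hz
    rw [h1, eval_map, Pool.Agent.TH145.MG.eval_mk]
    have h2 : (fun m => eval (x m) (F a)) = fun _ => 0 := funext fun m => hxF m a
    rw [h2]
    rfl
  have key := plane_cases (fun a => (hF a).map φ) hnpc hechN (z := fun i => ι (z i))
    (U := ι (z u1)) (V := ι (z v1)) (fun i => by
      have h1 := congrArg ι (hzP i)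
      rw [map_add, map_add, map_mul, map_mul] at h1
      rw [hpN, hpN, hpN]
      change ι (z i) = ι (P 0 i) + ι (P 1 i) * ι (z u1) + ι (P 2 i) * ι (z v1)
      rw [h1]
      ring) (fun a => by
      rw [aeval_def, eval₂_map, hcomp]
      have h1 := hom_eval₂ (F a) (cst L) ι z
      rw [← h1, ← eval_map, hevz a, map_zero])
  rcases key with h | ⟨y, ik, hik, hy⟩
  · obtain ⟨r, hr⟩ := h l
    have h1 : ι (z l) ∈ algebraicClosure (EE κ L) (Om K) := by
      rw [← hr]
      exact r.2
    have h2 := hmem' _ h1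
    rw [hz] at h2
    exact h2
  · exfalso
    obtain ⟨E, hE⟩ : ∃ E : Subfield K, E = (algebraMap L K).fieldRange := ⟨_, rfl⟩
    obtain ⟨ψ, hψ⟩ : ∃ ψ : L →+* E, ∀ a, ((ψ a : E) : K) = algebraMap L K a := by
      subst hE
      exact ⟨(algebraMap L K).rangeRestrictField, fun _ => rfl⟩
    have hcE : E.subtype.comp ψ = algebraMap L K := RingHom.ext hψ
    have hmF : ∀ a, map E.subtype (map ψ (F a)) = map (algebraMap L K) (F a) := by
      intro a
      rw [map_map, hcE]
    have hzx : (fun j => Om.mk fun m => algebraMap L K (x m j)) = fun j => ι (z j) := by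
      funext j
      rw [hι, hz]
      rfl
    obtain ⟨m, hm⟩ := exc_mk (K := K) (E := E) (r := 1) le_rfl (dg := dg) (C := Finset.univ)
      (F := fun a => map ψ (F a)) (fun a => (hF a).map ψ) (fun m j => algebraMap L K (x m j))
      (fun m c _ => by
        rw [hmF, eval_map]
        have h1 := hom_eval₂ (F c) (RingHom.id L) (algebraMap L K) (x m)
        rw [RingHom.comp_id] at h1
        rw [← h1]
        change algebraMap L K (eval (x m) (F c)) = 0
        rw [hxF, map_zero]) (y := y) (ik := ik) (by rw [hzx]; exact hik) (by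
        intro c _ a b
        rw [hzx]
        have h1 := hy c a b
        have h2 : FOm (fun a => map ψ (F a)) c =
            map (algebraMap (algebraicClosure (EE κ L) (Om K)) (Om K)) (map φ (F c)) := by
          unfold FOm
          rw [map_map, map_map, hcomp, RingHom.comp_assoc, hcE]
          congr 1
          rw [hι]
          rfl
        rw [h2]
        exact h1) ⟨0, fun b hb => absurd (Finset.mem_univ b) hb⟩
    simp only [hmF] at hm
    exact hX m hm

/-- The heights of the points on planes of bounded height are bounded. -/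
theorem boundedE {κ L K : Type} [Field κ] [Field L] [Field K] [Algebra κ L] [Algebra L K]
    [IsAlgClosed K] [CharZero κ] [IsFF κ L] [IsAlgClosed κ] {n : ℕ} {A : Type} [Fintype A]
    [DecidableEq A] {dg : A → ℕ} {F : A → MvPolynomial (Fin (n + 1)) L}
    (hF : ∀ a, (F a).IsHomogeneous (dg a)) (hgen : GenA dg F)
    (hd : 3 * n + 2 = 2 * ∑ a, dg a + Fintype.card A) (hcr : Crit n dg) (l0 : Fin (n + 1)) (H : ℤ) :
    ∃ B : ℤ, ∀ x : Fin (n + 1) → L, (∀ a, eval x (F a) = 0) → Pln κ H l0 x →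
      ¬ Exc 1 (fun a => map (algebraMap L K) (F a)) Finset.univ
        (fun j => algebraMap L K (x j)) → ∀ l, hgt κ (x l) ≤ B := by
  classical
  by_contra hcon
  push Not at hcon
  choose x hxF hR hX l hl using fun m : ℕ => hcon (m : ℤ)
  have h1 := ultraE hF hgen hd hcr x hxF hR hX
  choose B hB using fun l => Pool.Agent.TH145.MG.bdd_of_mem (h1 l)
  obtain ⟨C, hC⟩ : ∃ C : ℕ, ∀ l, B l ≤ C := by
    refine ⟨∑ l, (B l).toNat, fun l => ?_⟩
    have h2 := Finset.single_le_sum (f := fun l => (B l).toNat) (fun _ _ => Nat.zero_le _)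
      (Finset.mem_univ l)
    have h3 := Int.self_le_toNat (B l)
    push_cast
    have h4 : (((B l).toNat : ℕ) : ℤ) ≤ ((∑ l, (B l).toNat : ℕ) : ℤ) := by exact_mod_cast h2
    push_cast at h4
    linarith
  have h2 : ∀ᶠ m in (Filter.hyperfilter ℕ : Filter ℕ), C ≤ m := by
    have h3 : ∀ᶠ m in (Filter.cofinite : Filter ℕ), C ≤ m := by
      rw [Nat.cofinite_eq_atTop]
      exact Filter.eventually_ge_atTop C
    exact Filter.hyperfilter_le_cofinite h3
  obtain ⟨m, h3, h4⟩ := ((Filter.eventually_all.2 hB).and h2).exists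
  have h5 := hl m
  have h6 := h3 (l m)
  have h7 := hC (l m)
  have h8 : (C : ℤ) ≤ m := by exact_mod_cast h4
  linarith

end Pool.Agent.KS6_26.G
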